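import Mathlib

/-!
# Squad ACK (MP_0b396c_gt): prime alternating knots by crosscap number, the combinatorial model

A reduced alternating diagram of a prime knot is (up to mirror image) a prime closed curve on the sphere, given
by its Gauss word: the list of the crossings in the order in which the curve passes them, every crossing
twice.  Two such diagrams give the same knot, up to mirror image, iff they are related by flypes
(Menasco and Thistlethwaite); the minimal first Betti number of a spanning surface is attained by a state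
surface of the diagram (Adams and Kindred): `c + 1 -` the number of the state circles, one-sided iff the
state is not the state of the smoothings which respect the direction of the curve.

Positions of the word of length `2 c` are the elements of `ZMod (2 c)`, edge `i` goes from the position `i`
to the position `i + 1`.
-/

set_option autoImplicit false

namespace Pool.Agent.ACK

/-- every letter of `l` occurs exactly twice in `l` -/
def Gw (l : List ℕ) : Prop := ∀ x ∈ l, l.count x = 2

/-- the moves: other names of the crossings, another starting point, the other direction, and flypes (the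
crossing `x` is moved across the tangle with the crossings of `U ++ V` through which the curve passes
twice, along `U` and along `V`) -/
inductive Mv : List ℕ → List ℕ → Prop
  | ren (l : List ℕ) (f : ℕ → ℕ) : Set.InjOn f {x | x ∈ l} → Mv l (l.map f)
  | rot (a b : List ℕ) : Mv (a ++ b) (b ++ a)
  | rev (l : List ℕ) : Mv l l.reverse
  | fl1 (x : ℕ) (U A V B : List ℕ) : Gw (U ++ V) →
      Mv (x :: (U ++ (A ++ x :: (V ++ B)))) (U ++ x :: (A ++ (V ++ x :: B)))
  | fl2 (x : ℕ) (U A V B : List ℕ) : Gw (U ++ V) →
      Mv (x :: (U ++ (A ++ (V ++ x :: B)))) (U ++ x :: (A ++ x :: (V ++ B)))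
  | fl3 (x : ℕ) (U A V B : List ℕ) : Gw (U ++ V) →
      Mv (x :: (U ++ x :: (A ++ (V ++ B)))) (U ++ (A ++ x :: (V ++ x :: B)))

/-- the cyclic word `l` of length `2 c` as a function on the positions -/
def wd (c : ℕ) (l : List ℕ) (i : ZMod (2 * c)) : ℕ := l.getD i.val 0

/-- gluing of the edges at the crossings after the smoothing of all crossings; `s x = true`: the smoothing
at `x` respects the direction of the curve, `s x = false`: the other smoothing -/
def CR {n : ℕ} (w : ZMod n → ℕ) (s : ℕ → Bool) (p q : ZMod n) : Prop :=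
  ∃ i j : ZMod n, i ≠ j ∧ w i = w j ∧
    ((s (w i) = true ∧ p = i - 1 ∧ q = j) ∨
      (s (w i) = false ∧ ((p = i - 1 ∧ q = j - 1) ∨ (p = i ∧ q = j))))

/-- the number of the state circles -/
noncomputable def nc {n : ℕ} (w : ZMod n → ℕ) (s : ℕ → Bool) : ℕ := Nat.card (Quot (CR w s))

/-- the opposite state -/
def op (s : ℕ → Bool) : ℕ → Bool := fun x => !(s x)

/-- `l` is the Gauss word of a prime closed curve on the sphere with `c` crossings, without nugatory
crossing.  `pl`: the faces are the circles of a state and of the opposite state (black and white faces), their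
number is `c + 2`.  `pr`: no proper part of the cyclic word is closed. -/
structure Kn (c : ℕ) (l : List ℕ) : Prop where
  len : l.length = 2 * c
  gw : Gw l
  pl : ∃ s, nc (wd c l) s + nc (wd c l) (op s) = c + 2
  pr : ∀ (k : ℕ) (a b : List ℕ), l.rotate k = a ++ b → a ≠ [] → b ≠ [] → ∃ x ∈ a, x ∈ b

/-- the minimal first Betti number of the state surfaces is `k` -/
def Ga (c : ℕ) (l : List ℕ) (k : ℕ) : Prop :=
  (∃ s, nc (wd c l) s + k = c + 1) ∧ ∀ s, nc (wd c l) s + k ≤ c + 1

/-- the minimal first Betti number of the one-sided state surfaces is `k` -/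
def ga (c : ℕ) (l : List ℕ) (k : ℕ) : Prop :=
  (∃ s, (∃ x ∈ l, s x = false) ∧ nc (wd c l) s + k = c + 1) ∧
    ∀ s, (∃ x ∈ l, s x = false) → nc (wd c l) s + k ≤ c + 1

/-- the number of the classes (knots) with `c` crossings and unoriented genus `k` -/
noncomputable def An (k c : ℕ) : ℕ∞ :=
  Set.encard {q : Quot Mv | ∃ l, Kn c l ∧ Ga c l k ∧ Quot.mk Mv l = q}

/-- the number of the classes (knots) with `c` crossings and crosscap number `k` -/
noncomputable def an (k c : ℕ) : ℕ∞ :=
  Set.encard {q : Quot Mv | ∃ l, Kn c l ∧ ga c l k ∧ Quot.mk Mv l = q}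

/-- **RES**: clause 3 fails for `k = 3` and all large even `c` -/
def ResStmt : Prop := ∃ c0 : ℕ, ∀ c, c0 ≤ c → Even c → An 3 c < An 3 (c - 1) ∧ an 3 c < an 3 (c - 1)

/-! ## Function form -/

/-- the circle of the edge `p` -/
def cl {n : ℕ} (w : ZMod n → ℕ) (s : ℕ → Bool) (p : ZMod n) : Quot (CR w s) := Quot.mk _ p

/-- every letter is at exactly two positions -/
def Gf {n : ℕ} (w : ZMod n → ℕ) : Prop :=
  ∀ i, ∃ j, j ≠ i ∧ w j = w i ∧ ∀ k, w k = w i → k = i ∨ k = j

/-- function form of primality: no function which is constant on the letters jumps at exactly two edges -/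
def PrF {n : ℕ} (w : ZMod n → ℕ) : Prop := ∀ u : ZMod n → ZMod 2, (∀ i j, w i = w j → u i = u j) →
  ∀ p q : ZMod n, p ≠ q → ¬ ∀ i, u i + u (i + 1) = if i = p ∨ i = q then 1 else 0

/-- the edges `p`, `q` form a circle of the state `s` (bigon `x y .. x y` or `x y .. y x`) -/
def Bg {n : ℕ} (w : ZMod n → ℕ) (s : ℕ → Bool) (p q : ZMod n) : Prop :=
  p ≠ q ∧ ((s (w p) = false ∧ s (w (p + 1)) = false ∧ w q = w p ∧ w (q + 1) = w (p + 1)) ∨
    (s (w p) = true ∧ s (w (p + 1)) = true ∧ w q = w (p + 1) ∧ w (q + 1) = w p ∧
      q + 1 ≠ p ∧ p + 1 ≠ q))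

/-! ## Chains -/

/-- token: a chain and a direction (`true`: backwards) -/
abbrev Tk : Type := ℕ × Bool

/-- the block of a token, `C e` is the list of the crossings of the chain `e` -/
def bk (C : ℕ → List ℕ) (t : Tk) : List ℕ := if t.2 then (C t.1).reverse else C t.1

/-- the word with the tokens `b` -/
def BL (C : ℕ → List ℕ) (b : List Tk) : List ℕ := b.flatMap (bk C)

/-- every chain is passed twice, the chains are nonempty and disjoint -/
structure CW (C : ℕ → List ℕ) (b : List Tk) : Prop where
  tw : Gw (b.map Prod.fst)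
  ne : ∀ t ∈ b, C t.1 ≠ []
  nd : ∀ t ∈ b, (C t.1).Nodup
  dj : ∀ t ∈ b, ∀ t' ∈ b, t.1 ≠ t'.1 → List.Disjoint (C t.1) (C t'.1)

/-- the types of the chains agree with the state: the two passages have the same direction iff the
smoothings do not respect the direction of the curve (then all inner circles are bigons) -/
def Ty (C : ℕ → List ℕ) (b : List Tk) (s : ℕ → Bool) : Prop :=
  ∀ (P Q R : List Tk) (t t' : Tk), b = P ++ t :: (Q ++ t' :: R) → t.1 = t'.1 →
    ∀ x ∈ C t.1, (s x = false ↔ t.2 = t'.2)

/-- the standard chains with `a e` crossings, the crossings of the chain `e < N` are the numbers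
`N m + e` -/
def sc (N : ℕ) (a : ℕ → ℕ) (e : ℕ) : List ℕ := (List.range (a e)).map (fun m => N * m + e)

/-- the edge behind the `k`-th token (`k < b.length`), as an edge of the word `BL C b` of length `2 c` -/
def gp (c : ℕ) (C : ℕ → List ℕ) (b : List Tk) (k : ℕ) : ZMod (2 * c) :=
  ((BL C (b.take (k + 1))).length : ZMod (2 * c)) - 1

/-- the situation with six chains: all circles of `s` have at most three edges, the edges between the
chains are not in bigons -/
structure Sx (c : ℕ) (C : ℕ → List ℕ) (b : List Tk) (s : ℕ → Bool) : Prop where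
  kn : Kn c (BL C b)
  cw : CW C b
  ty : Ty C b s
  len : b.length = 12
  gb : ∀ k < 12, ∀ q, ¬ Bg (wd c (BL C b)) s (gp c C b k) q
  cs : nc (wd c (BL C b)) s + 2 = c
  co : nc (wd c (BL C b)) (op s) = 4
  sm : ∀ p q r t : ZMod (2 * c), [p, q, r, t].Nodup →
    ¬ (cl (wd c (BL C b)) s p = cl (wd c (BL C b)) s q ∧
      cl (wd c (BL C b)) s p = cl (wd c (BL C b)) s r ∧
      cl (wd c (BL C b)) s p = cl (wd c (BL C b)) s t)

/-- words with at most five chains -/
def Fw (c : ℕ) (l : List ℕ) : Prop :=
  ∃ (C : ℕ → List ℕ) (b : List Tk), CW C b ∧ b.length ≤ 10 ∧ l = BL C b ∧ l.length = 2 * c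

end Pool.Agent.ACK
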