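import Pool.Agent.ACK.Defs

/-!
# Squad ACK (MP_0b396c_gt), part A: circles, chains, few chains (statements with proofs)

Every row: file `Pool/Agent/HelperNN_ACK/XXX.lean`, import `Pool.Agent.ACK.StmtsA`, namespace
`Pool.Agent.ACK.HNN`, theorem `xxx (hypotheses = rows in uses, in this order) : XxxStmt`.
`~r` is `List.IsRotated`.
-/

set_option autoImplicit false

namespace Pool.Agent.ACK

/-- **GFW** (easy-medium; uses nothing).  The function form of a word in which every letter occurs twice.
PROOF. `w i = l[i.val]` (`i.val < 2 c = l.length`, `List.getD_eq_getElem`).  The letter `x = l[i.val]` has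
`l.count x = 2`, so it is at exactly two indices (e.g. `List.count` and
`List.duplicate`, or induction on `l`: an index `i` with `l[i] = x` splits `l = P ++ x :: Q`, the count of
`x` in `P ++ Q` is `1`, so there is exactly one other index). -/
def GfwStmt : Prop := ∀ (c : ℕ) (l : List ℕ), 1 ≤ c → l.length = 2 * c → Gw l → Gf (wd c l)

/-- **PRW** (medium; uses nothing).  Function form of primality.
PROOF. Let `u` be constant on the letters with jumps exactly at `p ≠ q`; let `p.val < q.val` (symmetric).  On the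
positions `p.val + 1, .., q.val` the function `u` is constant (induction, no jump between them), on the other
positions it is constant too, with the other value.  `l.rotate (p.val + 1) = a ++ b`, `a` the letters at the
positions `p.val + 1, .., q.val`, `b` the other ones, both not empty.  `Kn.pr`: a letter `x` in `a` and in `b`:
positions `i`, `j` with `w i = w j = x`, `u i = u j`: contradiction. -/
def PrwStmt : Prop := ∀ (c : ℕ) (l : List ℕ), Kn c l → 1 ≤ c → PrF (wd c l)

/-- **ROT** (medium; uses nothing).  Rotation.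
PROOF. `l' = l.rotate k = b ++ a`, `l = a ++ b`: `Mv.rot`.  `wd c l' i = wd c l (i + k)`
(`List.getElem_rotate`), and `CR` is translation invariant: the bijection `i ↦ i + k` of `ZMod (2 c)` gives a
bijection of the quotients (`Nat.card_congr`, `Quot.congr`).  `Kn`: length, counts (`List.IsRotated.perm`), `pl` by the
second part, `pr`: a rotation of `l'` is a rotation of `l` (`List.rotate_rotate`). -/
def RotStmt : Prop := ∀ (c : ℕ) (l l' : List ℕ), 1 ≤ c → l.length = 2 * c → l ~r l' →
  Quot.mk Mv l = Quot.mk Mv l' ∧ (∀ s, nc (wd c l') s = nc (wd c l) s) ∧ (Kn c l → Kn c l')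

/-- **NLP** (easy-medium; uses nothing).  No loops.
PROOF. Suppose `w i = w (i + 1)`.  Let `u` be the indicator function of `{i, i + 1}`: constant on the letters (`Gf`: the
letter of `i` is only at `i` and `i + 1`), jumps exactly at the edges `i - 1` and `i + 1`, which are different
(`n ≥ 3`): contradiction to `PrF`. -/
def NlpStmt : Prop := ∀ (n : ℕ) [NeZero n] (w : ZMod n → ℕ), 3 ≤ n → Gf w → PrF w →
  ∀ i, w i ≠ w (i + 1)

/-- **MTE** (medium; uses nothing).  The two mates of an edge.
PROOF. `π i` = the other position of the letter of `i` (choose it by `Gf`): `π (π i) = i`, `π i ≠ i`.  Mate at the start: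
`f p = π p - 1` if `s (w p)`, otherwise `π p`.  Mate at the end: `g p = π (p + 1)` if `s (w (p + 1))`, otherwise
`π (p + 1) - 1`.  `f p = p` would give `π p = p + 1` (a loop) or `π p = p`; `g` in the same way.  `CR w s p q` by cases:
with `i = p + 1`, `j = π i`: `q = j = g p` (`s` true), `q = j - 1 = g p` (`s` false, first case), or `i = p`,
`q = π p = f p`; the same for `p` as a mate of `q`.  `cl` by `Quot.sound`.  `f (f p) = p` if `s (w p) = false`, `g (f p) = p`
if `s (w p) = true` (the edge `π p - 1` ends at `π p`), and so on.  `Bg`: `f p = q`, `g p = q` with `s (w p) = false`,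
`s (w (p + 1)) = false`: `q = π p`, `q + 1 = π (p + 1)`; both true: `q + 1 = π p`, `q = π (p + 1)`; mixed:
`π p = π (p + 1)`, impossible (`q = π p` and `q = π (p + 1)`; or `q + 1` equal to both). -/
def MteStmt : Prop := ∀ (n : ℕ) [NeZero n] (w : ZMod n → ℕ) (s : ℕ → Bool), Gf w →
  (∀ i, w i ≠ w (i + 1)) → ∃ f g : ZMod n → ZMod n,
    (∀ p, f p ≠ p ∧ g p ≠ p) ∧ (∀ p, cl w s (f p) = cl w s p ∧ cl w s (g p) = cl w s p) ∧
    (∀ p q, CR w s p q → (q = f p ∨ q = g p) ∧ (p = f q ∨ p = g q)) ∧
    (∀ p, f (f p) = p ∨ g (f p) = p) ∧ (∀ p, f (g p) = p ∨ g (g p) = p) ∧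
    (∀ p q, Bg w s p q ↔ f p = q ∧ g p = q)

/-- **CLS** (medium; uses MTE).  Circles of size 2 are bigons.
PROOF. (1) `Bg w s q p` follows from the definition of `Bg` (exchange `p` and `q`).  By MTE `f p = g p = q`, `f q = g q = p`.  So the
function `r ↦ (r = p ∨ r = q)` is invariant under `CR` (MTE (3)), and `Quot.lift` (or `Relation.EqvGen`) gives the claim.
(2) `q = f p`, `r = g p`; `q ≠ r`, otherwise `Bg w s p q`. -/
def ClsStmt : Prop := ∀ (n : ℕ) [NeZero n] (w : ZMod n → ℕ) (s : ℕ → Bool), Gf w →
  (∀ i, w i ≠ w (i + 1)) →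
    (∀ p q, Bg w s p q → Bg w s q p ∧ ∀ r, cl w s r = cl w s p ↔ r = p ∨ r = q) ∧
    ∀ p, (∀ q, ¬ Bg w s p q) → ∃ q r, [p, q, r].Nodup ∧ cl w s q = cl w s p ∧ cl w s r = cl w s p

/-- **SIZ** (medium; uses CLS).  Counting the circles.
PROOF. Weight of an edge: `3` if it is in a bigon, otherwise `2`.  The sum of the weights over all edges is `2 n + B`, `B` the
number of the edges in bigons.  The weight of every circle is at least `6`: two bigon edges, or (CLS (2)) at
least three edges; a circle with four edges is not a bigon, its weight is at least `8`.  Sum over the circles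
(`Finset.sum_fiberwise` or `Fintype.sum_fiberwise` for `cl w s`, `nc = Fintype.card (Quot ..)`). -/
def SizStmt : Prop := ∀ (n : ℕ) [NeZero n] (w : ZMod n → ℕ) (s : ℕ → Bool), Gf w →
  (∀ i, w i ≠ w (i + 1)) →
    6 * nc w s ≤ 2 * n + Nat.card {p : ZMod n // ∃ q, Bg w s p q} ∧
    ((∃ p q r t : ZMod n, [p, q, r, t].Nodup ∧ cl w s p = cl w s q ∧ cl w s p = cl w s r ∧
      cl w s p = cl w s t) → 6 * nc w s + 2 ≤ 2 * n + Nat.card {p : ZMod n // ∃ q, Bg w s p q})

/-! ## Chains -/

/-- **RTK** (medium; uses nothing).  Rotation of the tokens.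
PROOF. `BL C (a ++ b) = BL C a ++ BL C b` (`List.flatMap_append`), `b.rotate k = b.drop (k % ..) ++ b.take ..`.  `CW`: the conditions
depend on the members and on the counts only.  `Ty`: a decomposition of the rotated list with the tokens `t`, `t'`
gives a decomposition of `b` with `t`, `t'` or with `t'`, `t` (two different positions); the condition is symmetric
(`C t.1 = C t'.1`).  It is convenient to prove first: `Ty C b s` iff for all `i < j < b.length` with
`b[i].1 = b[j].1` and all `x ∈ C b[i].1`: `s x = false ↔ b[i].2 = b[j].2`. -/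
def RtkStmt : Prop := ∀ (C : ℕ → List ℕ) (b b' : List Tk) (s : ℕ → Bool), b ~r b' →
  BL C b ~r BL C b' ∧ (CW C b → CW C b') ∧ (Ty C b s → Ty C b' s)

/-- **CWG** (easy-medium; uses nothing).  The word of a chain decomposition.
PROOF. `x ∈ BL C b` is in `C e` for exactly one `e` (`dj`), there it occurs once (`nd`), the blocks of the tokens of `e` are two
(`tw`): count two (`List.count_flatMap`).  Length: sum of the lengths of the blocks. -/
def CwgStmt : Prop := ∀ (C : ℕ → List ℕ) (b : List Tk), CW C b →
  Gw (BL C b) ∧ (BL C b).length = (b.map (fun t => (C t.1).length)).sum ∧ b.length ≤ (BL C b).length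

/-- **FLG** (medium; uses nothing).  The decomposition into single crossings.
PROOF. `C e = [e]`; the token of the first occurrence of `x` is `(x, false)`, the token of the second occurrence is
`(x, s x)`.  Define the list by recursion with the list of the letters seen so far (or
`l.zipIdx.map (fun a => (a.1, s a.1 && decide (l.idxOf a.1 < a.2)))`).  `b.map Prod.fst = l`, the blocks are `[x]`.  `Ty`: the
first one of two tokens with the same letter has the direction `false`. -/
def FlgStmt : Prop := ∀ (l : List ℕ) (s : ℕ → Bool), Gw l →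
  ∃ (C : ℕ → List ℕ) (b : List Tk), CW C b ∧ Ty C b s ∧ l = BL C b

/-- **BGL** (medium; uses nothing).  A bigon edge in the list.
PROOF. `l' = l.rotate (p.val + 1)` begins with the letter `y` of the position `p + 1` and ends with the letter `x` of the position
`p`.  The edge `q ≠ p` is an edge inside of `l'`: with `m = (q - (p + 1)).val < 2 c - 1`: `l'[m]`, `l'[m + 1]` are the
letters `w q`, `w (q + 1)`: `l' = G1 ++ [w q, w (q + 1)] ++ G2`.  First case: `w q = x`, `w (q + 1) = y`: `G1` is not empty
(otherwise the first letter `y` would be at the positions `0` and .. : `m = 0` gives `q = p + 1`, `x = w (p + 1) = y`: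
a loop), `G2` is not empty (`m + 2 = 2 c` gives `q + 1 = p`, `y = x`).  Second case: `w q = y`, `w (q + 1) = x`: `m ≠ 0`
because `q ≠ p + 1`, and `m + 2 ≠ 2 c` because `q + 1 ≠ p`. -/
def BglStmt : Prop := ∀ (c : ℕ) (l : List ℕ) (s : ℕ → Bool) (p q : ZMod (2 * c)), 1 ≤ c →
  l.length = 2 * c → (∀ i, wd c l i ≠ wd c l (i + 1)) → Bg (wd c l) s p q →
    ∃ (x y : ℕ) (M G1 G2 : List ℕ), G1 ≠ [] ∧ G2 ≠ [] ∧ l.rotate (p.val + 1) = y :: (M ++ [x]) ∧
      ((s x = false ∧ s y = false ∧ l.rotate (p.val + 1) = G1 ++ x :: y :: G2) ∨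
        (s x = true ∧ s y = true ∧ l.rotate (p.val + 1) = G1 ++ y :: x :: G2))

/-- **GPB** (medium; uses CWG).  The edges between the tokens.
PROOF. `L k = (BL C (b.take (k + 1))).length`, `0 < L 0 < L 1 < .. < L (r - 1) = 2 c` (`r = b.length`; the blocks are not empty).
(1) `((L k : ZMod (2 c)) - 1).val = L k - 1` (`1 ≤ L k ≤ 2 c`), so `(BL C b).rotate (L k) = BL C (b.drop (k + 1)) ++
BL C (b.take (k + 1)) = BL C (b.rotate (k + 1))`.  (2) injective: the numbers `L k - 1 < 2 c` are different. -/
def GpbStmt : Prop := ∀ (c : ℕ) (C : ℕ → List ℕ) (b : List Tk), 1 ≤ c → CW C b →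
  (BL C b).length = 2 * c →
    (∀ k < b.length, (BL C b).rotate ((gp c C b k).val + 1) = BL C (b.rotate (k + 1))) ∧
    ∀ k < b.length, ∀ k' < b.length, gp c C b k = gp c C b k' → k = k'

/-- **MRA** (strong; uses CWG).  Two chains which are adjacent in both passages are one chain.
PROOF. The word is `l = BL C (t' :: (β ++ [t]))`, it begins with `y` (the first letter of the block of `t'`) and ends with `x`
(the last letter of the block of `t`); `x ≠ y`.  Let `e = t.1`, `f = t'.1`, `E`, `F` the blocks of `t`, `t'`.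
(a) `e ≠ f`: suppose `e = f`; `t`, `t'` are the two tokens of `e`.  If `t.2 ≠ t'.2` then `E = F.reverse`, `x = y`.  If `t.2 = t'.2`
then `E = F`, `l = E ++ BL C β ++ E`, `β ≠ []` (`4 ≤ ..`), and by `Ty` `s x = false`; the occurrence of `x` which is followed by `y` in
`l = G1 ++ x :: y :: G2` (`G2 ≠ []`) is not the last letter of `l`, so it is the last letter of the first `E`; the
next letter belongs to `BL C β`, `y` does not (`y ∈ E`, both occurrences are in the two `E`).
(b) First case (`s x = s y = false`).  Let `u`, `u'` be the other tokens of `e`, `f`, both in `β`; by `Ty` the block of `u` is `E`, the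
block of `u'` is `F`.  The occurrence of `x` in `G1 ++ x :: y :: G2` which is followed by `y` is not the last letter of `l`:
it is the last letter of the block of `u`; the next letter `y` is the first letter of the next token, which is
therefore a token of `f`, not `t'` (`t'` is the first token): it is `u'`: `β = P ++ u :: u' :: R`.  New: `C' = Function.update C e
(E ++ F)`, `b' = (e, false) :: (P ++ (e, false) :: R)`: `BL C' b' = E ++ F ++ BL C P ++ E ++ F ++ BL C R` is a rotation of
`l = F ++ BL C P ++ E ++ F ++ BL C R ++ E` (the letters `e`, `f` are not in `P`, `R`).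
(c) Second case (`s x = s y = true`): the blocks of `u`, `u'` are `E.reverse`, `F.reverse`; `y x` in the word: `y` is not the first letter
of the word (`G1 ≠ []`), so it is the last letter of the block of `u'`, and `x` is the first letter of the block of `u`:
`β = P ++ u' :: u :: R`, `b' = (e, false) :: (P ++ (e, true) :: R)`, `(E ++ F).reverse = F.reverse ++ E.reverse`.
`CW`, `Ty` for `C'`, `b'`: the pairs of tokens of the other chains are not changed, `s` is constant on `E ++ F`. -/
def MraStmt : Prop := ∀ (C : ℕ → List ℕ) (β : List Tk) (t t' : Tk) (s : ℕ → Bool) (x y : ℕ)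
  (M G1 G2 : List ℕ), CW C (t' :: (β ++ [t])) → Ty C (t' :: (β ++ [t])) s → 2 ≤ β.length → x ≠ y →
    G1 ≠ [] → G2 ≠ [] → BL C (t' :: (β ++ [t])) = y :: (M ++ [x]) →
      ((s x = false ∧ s y = false ∧ BL C (t' :: (β ++ [t])) = G1 ++ x :: y :: G2) ∨
        (s x = true ∧ s y = true ∧ BL C (t' :: (β ++ [t])) = G1 ++ y :: x :: G2)) →
        ∃ (C' : ℕ → List ℕ) (b' : List Tk), CW C' b' ∧ Ty C' b' s ∧
          BL C (t' :: (β ++ [t])) ~r BL C' b' ∧ b'.length < β.length + 2

/-- **CST** (medium; uses GFW, RTK, CWG, FLG, BGL, GPB, MRA).  The chain decomposition.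
PROOF. Take `(C, b)` with `CW`, `Ty`, `l ~r BL C b` and minimal `b.length` (it exists by FLG).  Suppose `b.length > 2`, `k < b.length` and
`Bg .. (gp c C b k) q`.  `b.length ≥ 4` (even: every letter of `b.map Prod.fst` occurs twice; or: a token `t` with its partner
and the partner's .. ; an odd length is impossible).  The word `BL C b` has no loops (it is a rotation of `l`).  BGL for
`BL C b` and `p = gp c C b k`, GPB: the rotated word is `BL C (b.rotate (k + 1))`, write `b.rotate (k + 1) = t' :: (β ++ [t])`;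
RTK, MRA (`x ≠ y`: neighbours in the cyclic word): a shorter decomposition of a rotation: contradiction. -/
def CstStmt : Prop := ∀ (c : ℕ) (l : List ℕ) (s : ℕ → Bool), 1 ≤ c → l.length = 2 * c → Gw l →
  (∀ i, wd c l i ≠ wd c l (i + 1)) → ∃ (C : ℕ → List ℕ) (b : List Tk), CW C b ∧ Ty C b s ∧
    l ~r BL C b ∧ (b.length ≤ 2 ∨ ∀ k < b.length, ∀ q, ¬ Bg (wd c (BL C b)) s (gp c C b k) q)

/-- **FEW** (medium; uses GFW, PRW, ROT, NLP, SIZ, GPB, CST).  Three chains.
PROOF. CST.  Let `b.length > 2`, `w = wd c (BL C b)` (Kn, Gf, PrF, no loops by ROT, GFW, PRW, NLP; `nc w s` is the same).  By GPB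
the `b.length` edges `gp k` are different, and they are not in bigons: `b.length + B ≤ 2 c`, `B` the number of the
edges in bigons.  SIZ: `6 (c - 1) ≤ 4 c + B`, so `B ≥ 2 c - 6`, `b.length ≤ 6`. -/
def FewStmt : Prop := ∀ (c : ℕ) (l : List ℕ) (s : ℕ → Bool), 3 ≤ c → Kn c l →
  c ≤ nc (wd c l) s + 1 → ∃ (k : ℕ) (C : ℕ → List ℕ) (b : List Tk), CW C b ∧ b.length ≤ 6 ∧
    l.rotate k = BL C b

/-- the statement MON of part B: if no circle of `s` has four edges then the circles of `s` and of `op s` are
the faces -/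
def MonStmt : Prop := ∀ (c : ℕ) (l : List ℕ) (s : ℕ → Bool), 3 ≤ c → Kn c l →
  (∀ p q r t : ZMod (2 * c), [p, q, r, t].Nodup → ¬ (cl (wd c l) s p = cl (wd c l) s q ∧
    cl (wd c l) s p = cl (wd c l) s r ∧ cl (wd c l) s p = cl (wd c l) s t)) →
      nc (wd c l) s + nc (wd c l) (op s) = c + 2

/-- **DIC** (medium; uses GFW, PRW, ROT, NLP, CWG, SIZ, GPB, CST, MON).  At most five chains, or six chains
and small circles.
PROOF. CST and `w` as in FEW, `nc w s + 2 = c`.  If `b.length ≤ 10`: `Fw`.  Let `b.length > 10`, so `b.length + B ≤ 2 c`.  If a circle has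
four edges: SIZ (2): `6 (c - 2) + 2 ≤ 4 c + B`, `B ≥ 2 c - 10`, `b.length ≤ 10`, contradiction.  So no circle has four
edges, SIZ (1): `B ≥ 2 c - 12`, `b.length ≤ 12`; the length of `b` is even (`Gw (b.map Prod.fst)`): `12`.  MON for `BL C b`:
`nc w (op s) = 4`. -/
def DicStmt : Prop := ∀ (c : ℕ) (l : List ℕ) (s : ℕ → Bool), 3 ≤ c → Kn c l →
  nc (wd c l) s + 2 = c → (∃ l', l ~r l' ∧ Fw c l') ∨
    ∃ (C : ℕ → List ℕ) (b : List Tk), l ~r BL C b ∧ Sx c C b s

/-! ## Counting -/

/-- **STD** (medium; uses nothing).  Standard names of the crossings.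
PROOF. `f x = N m + e` for `x = (C e)[m]`, `e` a letter of `b` (`dj`, `nd`: `e`, `m` are determined by `x`); injective on the letters because
`e < N` (`Nat.mod`, `Nat.div`).  `(C e).map f = sc N (fun e => (C e).length) e`, and `map` commutes with `reverse` and `flatMap`.
`Mv.ren`. -/
def StdStmt : Prop := ∀ (N : ℕ) (C : ℕ → List ℕ) (b : List Tk), 1 ≤ N → CW C b →
  (∀ t ∈ b, t.1 < N) → Quot.mk Mv (BL C b) = Quot.mk Mv (BL (sc N (fun e => (C e).length)) b)

/-- **RNM** (medium; uses nothing).  Standard names of the chains.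
PROOF. `b` has `b.length / 2 ≤ N` different letters (every letter twice; `List.toFinset`, `card`), so there is an
injective `g` from the letters to the numbers `< N`; `b' = b.map (fun t => (g t.1, t.2))`, `C' (g e) = C e`. -/
def RnmStmt : Prop := ∀ (N : ℕ) (C : ℕ → List ℕ) (b : List Tk), 1 ≤ N → CW C b →
  b.length ≤ 2 * N → ∃ (C' : ℕ → List ℕ) (b' : List Tk), CW C' b' ∧ (∀ t ∈ b', t.1 < N) ∧
    b'.length = b.length ∧ BL C' b' = BL C b

/-- **COU** (medium-strong; uses CWG, STD, RNM).  Few classes with at most five chains.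
PROOF. Let `T` be the finite set of the lists of tokens of length `≤ 10` with letters `< 5` (`K` its number).  By RNM and STD
(`N = 5`) the class of `l` with `Fw c l` is the class of `BL (sc 5 a) b`, `b ∈ T`, `CW`, `a e` the length of the chain `e`;
`BL` depends only on the values `a e` for the letters `e` of `b`.  By CWG `2 c = 2 ∑ a e` over the letters `e` of `b`, so `a e ≤ c`, and
if `4` is a letter of `b` then `a 4 = c - ∑ a e` (`e < 4` a letter of `b`).  So the class is a value of the function
`(b, α) ↦ [BL (sc 5 (a from α)) b]` on `T × (Fin 4 → Fin (c + 1))`: at most `K (c + 1)^4` values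
(`Set.encard_image_le`, `Set.encard_le_encard`). -/
def CouStmt : Prop := ∃ K : ℕ, ∀ c : ℕ,
  Set.encard {q : Quot Mv | ∃ l, Fw c l ∧ Quot.mk Mv l = q} ≤ ((K * (c + 1) ^ 4 : ℕ) : ℕ∞)

/-- the parameters of the K4 type for even `c` -/
def Qe (c : ℕ) (a : Fin 6 → ℕ) : Prop := (∀ e, 1 ≤ a e) ∧ ∑ e, a e = c ∧ Even (a 0) ∧ Even (a 1) ∧
  Odd (a 2) ∧ Odd (a 3) ∧ Odd (a 4) ∧ Odd (a 5) ∧ a 0 ≤ a 1

/-- **QEC** (medium; uses nothing).  Their number.
PROOF. Let `X` be the set of all `a` with these conditions without `a 0 ≤ a 1`.  `a 0 = 2 k0 + 2`, `a 1 = 2 k1 + 2`, `a e = 2 k e + 1`: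
`X` corresponds to the `k : Fin 6 → ℕ` with the sum `(c - 8) / 2 = m + 4`: `(m + 9).choose 5` elements
(`Finset.Nat.antidiagonalTuple`, `Finset.piAntidiag`, `Sym`: stars and bars).  The exchange of `a 0`, `a 1` is an involution of `X`; `Q` and
its image cover `X`, and the intersection is contained in the set `a 0 = a 1`, which has at most `(c + 1)^4` elements
(`a 0, a 2, a 3, a 4` determine `a`): `2 |Q| = |Q| + |image| = |X| + |a 0 = a 1|`. -/
def QecStmt : Prop := ∀ m c : ℕ, c = 2 * m + 16 →
  2 * Set.encard {a : Fin 6 → ℕ | Qe c a} ≤ (((m + 9).choose 5 + (c + 1) ^ 4 : ℕ) : ℕ∞)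

/-- **ARI** (easy-medium; uses nothing).  Arithmetic.
PROOF. `120 (m + 5).choose 5 = (m+5)(m+4)(m+3)(m+2)(m+1) ≥ m^5` and `120 (m + 9).choose 5 = (m+9)(m+8)(m+7)(m+6)(m+5) ≤ (m + 9)^5 ≤ m^5 +
A m^4` for `m ≥ 1` with a constant `A` (e.g. `A = 10^5`), `(2 m + 17)^4 ≤ 19^4 m^4`.  So the claim follows from
`m > 360 A + 720 * 120 * K * 19^4`. -/
def AriStmt : Prop := ∀ K : ℕ, ∃ m0 : ℕ, ∀ m, m0 ≤ m →
  360 * (m + 9).choose 5 + 720 * K * (2 * m + 17) ^ 4 < 361 * (m + 5).choose 5

end Pool.Agent.ACK
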