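import Pool.Agent.ACK.StmtsA

/-!
# Squad ACK (MP_0b396c_gt), part B: duality of the black and white circles (statements with proofs)

Every row: file `Pool/Agent/HelperNN_ACK/XXX.lean`, import `Pool.Agent.ACK.StmtsB`, namespace
`Pool.Agent.ACK.HNN`, `open Pool.Agent.ACK.B`, theorem `xxx (hypotheses = rows in uses, in this order) :
XxxStmt`.

Goal: `MonStmt` (StmtsA).  Let `s0` be the state of the black faces, `op s0` the state of the white faces, their
number is `c + 2`.  A function `S` of the edges with values in `ZMod 2` with even sums over all black and white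
faces is of the form `S p = u p + u (p + 1)`, `u` constant on the letters (PDL: dimension count, both spaces have the
dimension `c - 1`).  So two different edges do not have the same black and the same white face (PD2, primality).
If a circle of a state `s` has at most three edges, then at all its crossings `s` agrees with `s0`, or at all its
crossings with `op s0` (MON).
-/

set_option autoImplicit false

namespace Pool.Agent.ACK.B

/-- the state `s` glues the edges `p`, `q` at the crossing `x` (a symmetric relation) -/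
def Co {n : ℕ} (w : ZMod n → ℕ) (s : ℕ → Bool) (x : ℕ) (p q : ZMod n) : Prop :=
  ∃ i j : ZMod n, i ≠ j ∧ w i = x ∧ w j = x ∧
    ((s x = true ∧ ((p = i - 1 ∧ q = j) ∨ (p = j ∧ q = i - 1))) ∨
      (s x = false ∧ ((p = i - 1 ∧ q = j - 1) ∨ (p = i ∧ q = j))))

/-- `S` has even sums over the circles of `s` -/
def Ev {n : ℕ} (w : ZMod n → ℕ) (s : ℕ → Bool) (S : ZMod n → ZMod 2) : Prop :=
  ∀ (p0 : ZMod n) (F : Finset (ZMod n)), (∀ p, p ∈ F ↔ cl w s p = cl w s p0) → ∑ p ∈ F, S p = 0

/-- `S` is the jump function of a function which is constant on the letters -/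
def Cu {n : ℕ} (w : ZMod n → ℕ) (S : ZMod n → ZMod 2) : Prop :=
  ∃ u : ZMod n → ZMod 2, (∀ i j, w i = w j → u i = u j) ∧ ∀ p, S p = u p + u (p + 1)

/-- the space of the functions with even sums over the circles of `s` and of `op s` -/
def VB {n : ℕ} (w : ZMod n → ℕ) (s : ℕ → Bool) : Submodule (ZMod 2) (ZMod n → ZMod 2) where
  carrier := {S | Ev w s S ∧ Ev w (op s) S}
  zero_mem' := ⟨fun p0 F _ => by simp, fun p0 F _ => by simp⟩
  add_mem' := by
    intro a b ha hb
    refine ⟨fun p0 F hF => ?_, fun p0 F hF => ?_⟩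
    · have h1 := ha.1 p0 F hF
      have h2 := hb.1 p0 F hF
      simp [Finset.sum_add_distrib, h1, h2]
    · have h1 := ha.2 p0 F hF
      have h2 := hb.2 p0 F hF
      simp [Finset.sum_add_distrib, h1, h2]
  smul_mem' := by
    intro r a ha
    refine ⟨fun p0 F hF => ?_, fun p0 F hF => ?_⟩
    · have h1 := ha.1 p0 F hF
      simp [← Finset.mul_sum, h1]
    · have h1 := ha.2 p0 F hF
      simp [← Finset.mul_sum, h1]

/-- the space of the jump functions -/
def UB {n : ℕ} (w : ZMod n → ℕ) : Submodule (ZMod 2) (ZMod n → ZMod 2) where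
  carrier := {S | Cu w S}
  zero_mem' := ⟨fun _ => 0, fun _ _ _ => rfl, fun _ => by simp⟩
  add_mem' := by
    rintro a b ⟨u, hu, ha⟩ ⟨v, hv, hb⟩
    refine ⟨fun i => u i + v i, fun i j h => ?_, fun p => ?_⟩
    · simp [hu i j h, hv i j h]
    · simp only [Pi.add_apply, ha p, hb p]; ring
  smul_mem' := by
    rintro r a ⟨u, hu, ha⟩
    refine ⟨fun i => r * u i, fun i j h => ?_, fun p => ?_⟩
    · simp [hu i j h]
    · simp only [Pi.smul_apply, smul_eq_mul, ha p]; ring

/-- **CRC** (easy; uses nothing).  Elementary properties of the gluing.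
PROOF.  (1) `s x = true`: `CR w s p q` or `CR w s q p` by the definition (`w i = w j = x`), `Quot.sound`; `s x = false`: `CR w s p q`.
`Co w s x q p`: exchange the two alternatives (`s x = true`), exchange `i` and `j` (`s x = false`).  (2) the definition of `Co`
uses only `s x`; if `s x ≠ s' x` then `op s' x = s x`.  (3) `CR` uses only the values of `s` on the letters: `CR w s = CR w s'`
(`funext`, `propext`).  (4) `Bool.not_not`. -/
def CrcStmt : Prop := ∀ (n : ℕ) (w : ZMod n → ℕ) (s s' : ℕ → Bool),
  (∀ x p q, Co w s x p q → cl w s p = cl w s q ∧ Co w s x q p) ∧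
  (∀ x p q, Co w s x p q → (s x = s' x → Co w s' x p q) ∧ (s x ≠ s' x → Co w (op s') x p q)) ∧
  ((∀ i, s (w i) = s' (w i)) → CR w s = CR w s' ∧ nc w s = nc w s' ∧ nc w (op s) = nc w (op s')) ∧
  op (op s) = s

/-- **SUM** (medium; uses nothing).  Jump functions have even sums over the circles of every state.
PROOF.  `π i` = the other position of the letter of `i` (`Gf`).  Let `F` be the set of the edges of a circle.  Consider the
half-edges `(p, b)`, `p ∈ F`, `b : Bool`, `(p, false)` = the start of the edge `p`, at the position `p`, `(p, true)` = the end, at the position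
`p + 1`.  `∑ p ∈ F, (u p + u (p + 1))` is the sum of `u` (position of the half-edge) over `F ×ˢ Finset.univ`.  The gluing is an
involution `τ` of these half-edges: if `s` is true at the letter then `τ (p, false) = (π p - 1, true)`,
`τ (p, true) = (π (p + 1), false)`; if `s` is false then `τ (p, false) = (π p, false)`, `τ (p, true) = (π (p + 1) - 1, true)`.  `τ τ = id`,
`τ h ≠ h` (`π i ≠ i`), `τ` stays in the circle (`CR`, `Quot.sound`), and the positions of `h` and `τ h` have the same letter, so `u` has the
same value: `Finset.sum_involution` (`x + x = 0` in `ZMod 2`: `CharTwo.add_self_eq_zero`). -/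
def SumStmt : Prop := ∀ (n : ℕ) [NeZero n] (w : ZMod n → ℕ) (s : ℕ → Bool), Gf w →
  ∀ S, Cu w S → Ev w s S

/-- **KRN** (easy-medium; uses nothing).  A function which is constant on the circles of `s` and of `op s` is constant.
PROOF.  Let `i` be a position, `j ≠ i` the other position of its letter `x`.  If `s x = true`: `CR w s (i - 1) j` and, because
`op s x = false`, `CR w (op s) i j`; so `F (i - 1) = F j = F i`.  If `s x = false`: `CR w (op s) (i - 1) j`, `CR w s i j`, the same.  So
`F (i - 1) = F i` for all `i`, and `F` is constant on `ZMod n` (induction on `k` for `F (k : ZMod n) = F 0`, `ZMod.natCast_zmod_val`). -/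
def KrnStmt : Prop := ∀ (n : ℕ) [NeZero n] (w : ZMod n → ℕ) (s : ℕ → Bool), Gf w →
  ∀ F : ZMod n → ZMod 2, (∀ p q, CR w s p q → F p = F q) → (∀ p q, CR w (op s) p q → F p = F q) →
    ∀ p q, F p = F q

/-- **LTC** (easy-medium; uses nothing).  The number of the letters.
PROOF.  The fibres of `w : ZMod (2 c) → Set.range w` have exactly two elements (`Gf`): `2 c = 2 * card`
(`Finset.card_eq_sum_card_fiberwise`, or `Finset.card_eq_sum_card_image`; `Set.toFinset`, `Finset.univ.image w`). -/
def LtcStmt : Prop := ∀ (c : ℕ) (w : ZMod (2 * c) → ℕ), 1 ≤ c → Gf w → Nat.card (Set.range w) = c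

/-- **RKA** (medium; uses LTC).  The dimension of the space of the jump functions.
PROOF.  `UB w` is the range of the linear map `D : (Set.range w → ZMod 2) → (ZMod n → ZMod 2)`,
`D v p = v (w p) + v (w (p + 1))` (a function `u` which is constant on the letters is `v ∘ w`).  The kernel: `v (w p) = v (w (p + 1))` for
all `p`, so `v ∘ w` is constant (induction), and `v` is constant: the kernel is the span of the function `1`, its dimension is `1`
(`finrank_span_singleton`; `1 ≠ 0` because `Set.range w` is not empty).  `LinearMap.finrank_range_add_finrank_ker`,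
`Module.finrank_pi`, LTC. -/
def RkaStmt : Prop := ∀ (c : ℕ) (w : ZMod (2 * c) → ℕ), 1 ≤ c → Gf w →
  Module.finrank (ZMod 2) (UB w) + 1 = c

/-- **RKB** (medium-strong; uses KRN).  The dimension of the space of the functions with even sums.
PROOF.  Let `Q = Quot (CR w s) ⊕ Quot (CR w (op s))` (finite types, `Fintype` by `Fintype.ofFinite` or classical) and
`A : Matrix Q (ZMod n) (ZMod 2)`, `A a p = 1` if `p` is in the circle `a`, otherwise `0`.  `VB w s` is the kernel of `A.mulVecLin`
(the component `a` is the sum of `S` over the circle `a`; `Finset.sum_filter`, the set `F` in `Ev` is this filter set), so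
`finrank (VB w s) + A.rank = n` (`LinearMap.finrank_range_add_finrank_ker`, `ZMod.card`).  `A.rank = A.transpose.rank`
(`Matrix.rank_transpose`), and the kernel of `A.transpose.mulVecLin` consists of the `(fb, fw) : Q → ZMod 2` with
`fb (cl w s p) + fw (cl w (op s) p) = 0` for all `p`, i.e. `fb (cl w s p) = fw (cl w (op s) p) =: F p`; by KRN `F` is constant, so
the kernel is the span of the function `1` (`Quot.mk` is surjective, `Quot` is not empty), dimension `1`:
`A.transpose.rank + 1 = card Q = nc w s + nc w (op s)` (`Nat.card_eq_fintype_card`).  (Instead of the matrix one can use the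
map `D (fb, fw) p = fb (cl w s p) + fw (cl w (op s) p)` and its dual map.) -/
def RkbStmt : Prop := ∀ (n : ℕ) [NeZero n] (w : ZMod n → ℕ) (s : ℕ → Bool), Gf w →
  Module.finrank (ZMod 2) (VB w s) + (nc w s + nc w (op s)) = n + 1

/-- **PDL** (easy-medium; uses SUM, RKA, RKB).  Duality.
PROOF.  `UB w ≤ VB w s` by SUM for `s` and `op s`.  `finrank (UB w) = c - 1` by RKA, `finrank (VB w s) = 2 c + 1 - (c + 2) = c - 1` by
RKB (`n = 2 c`, `NeZero (2 * c)`): equal (`Submodule.eq_of_le_of_finrank_eq`). -/
def PdlStmt : Prop := ∀ (c : ℕ) (w : ZMod (2 * c) → ℕ) (s : ℕ → Bool), 1 ≤ c → Gf w →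
  nc w s + nc w (op s) = c + 2 → ∀ S, Ev w s S → Ev w (op s) S → Cu w S

/-- **PD2** (easy-medium; uses PDL).  Two edges do not have the same black and the same white face.
PROOF.  Let `p ≠ q`, `S i = 1` if `i = p` or `i = q`, otherwise `0`.  A circle of `s` contains both of `p`, `q` or none of them, so the
sum of `S` over it is `1 + 1 = 0` or `0` (`Finset.sum_ite`, the filter set is `{p, q}` or empty); the same for `op s`.  PDL:
`S i = u i + u (i + 1)`, contradiction to `PrF w`. -/
def Pd2Stmt : Prop := ∀ (c : ℕ) (w : ZMod (2 * c) → ℕ) (s : ℕ → Bool), 1 ≤ c → Gf w → PrF w →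
  nc w s + nc w (op s) = c + 2 → ∀ p q, cl w s p = cl w s q → cl w (op s) p = cl w (op s) q → p = q

/-- **XCR** (easy-medium; uses PD2).  The two black faces at a crossing are different, the two white faces too.
PROOF.  Let `i = p + 1`, `j ≠ i` the other position of the letter `x = w i`.  (a) `s x = true`: `cl w s (i - 1) = cl w s j`,
`cl w s (j - 1) = cl w s i`, `cl w (op s) (i - 1) = cl w (op s) (j - 1)`, `cl w (op s) i = cl w (op s) j`.  If
`cl w s (i - 1) = cl w s i` then `i - 1` and `j - 1` have the same circles: `i = j`.  If `cl w (op s) (i - 1) = cl w (op s) i` then `i - 1` and `j`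
have the same circles: `i - 1 = j`, `w (i - 1) = w j = w i`: a loop.  (b) `s x = false`: the same with `s` and `op s`
exchanged. -/
def XcrStmt : Prop := ∀ (c : ℕ) (w : ZMod (2 * c) → ℕ) (s : ℕ → Bool), 1 ≤ c → Gf w → PrF w →
  (∀ i, w i ≠ w (i + 1)) → nc w s + nc w (op s) = c + 2 →
    ∀ p, cl w s p ≠ cl w s (p + 1) ∧ cl w (op s) p ≠ cl w (op s) (p + 1)

/-- **TRI** (medium; uses nothing).  Circles with at most three edges.
PROOF.  `π i` = the other position of the letter of `i`.  Mate at the start: `f p = π p - 1` if `s (w p)`, otherwise `π p`.  Mate at the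
end: `g p = π (p + 1)` if `s (w (p + 1))`, otherwise `π (p + 1) - 1`.  `Co w s (w p) p (f p)`, `Co w s (w (p + 1)) p (g p)`.
`f p ≠ p`, `g p ≠ p` (no loops, `π i ≠ i`).  Let `q = f p`, `r = g p`, `q ≠ r`.  The half-edges are glued by the involution `τ` of SUM: the start of
`p` is glued to one half-edge of `q`; let `h` be the other half-edge of `q`, `τ h` a half-edge of an edge `t` (`t = g q` or `t = f q`),
`Co w s z q t` with the letter `z` at `h`.  `t ≠ q`.  `t ≠ p`: otherwise both half-edges of `q` are glued to the two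
half-edges of `p`, so the end of `p` is glued to `q` and `r = q`.  All of `p, q, r, t` are in one circle, so `t = r`.
In formulas: if `s (w p) = true` then `g q = p` and `t = f q`; if `s (w p) = false` then `f q = p` and `t = g q`. -/
def TriStmt : Prop := ∀ (n : ℕ) [NeZero n] (w : ZMod n → ℕ) (s : ℕ → Bool), Gf w →
  (∀ i, w i ≠ w (i + 1)) → (∀ p q r t : ZMod n, [p, q, r, t].Nodup → ¬ (cl w s p = cl w s q ∧
    cl w s p = cl w s r ∧ cl w s p = cl w s t)) →
      ∀ p, ∃ (q r : ZMod n) (z : ℕ), q ≠ p ∧ r ≠ p ∧ Co w s (w p) p q ∧ Co w s (w (p + 1)) p r ∧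
        (q = r ∨ (q ≠ r ∧ Co w s z q r))

/-- **MNE** (medium; uses CRC, PD2, TRI).  The state agrees with `s0` at both ends of an edge or at none.
PROOF.  Let `q, r, z` be as in TRI, `x = w p`, `y = w (p + 1)`.  Suppose `s x = s0 x`, `s y ≠ s0 y`.  CRC: `Co w s0 x p q`,
`Co w (op s0) y p r`, so `cl w s0 p = cl w s0 q`, `cl w (op s0) p = cl w (op s0) r`.  If `q = r`: PD2 gives `p = q`.  Let `q ≠ r`,
`Co w s z q r`.  If `s z = s0 z` then `cl w s0 q = cl w s0 r`, so `p`, `r` have the same circles of `s0` and of `op s0`: `p = r`.  If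
`s z ≠ s0 z` then `cl w (op s0) q = cl w (op s0) r`, so `p`, `q` have the same circles: `p = q`.  All are contradictions.
`s x ≠ s0 x`, `s y = s0 y`: the same argument with `op s0` instead of `s0` (`op (op s0) = s0`, `s x = op s0 x`, `s y ≠ op s0 y`; PD2
for `op s0`: `nc w (op s0) + nc w s0 = c + 2`). -/
def MneStmt : Prop := ∀ (c : ℕ) (w : ZMod (2 * c) → ℕ) (s s0 : ℕ → Bool), 1 ≤ c → Gf w → PrF w →
  (∀ i, w i ≠ w (i + 1)) → nc w s0 + nc w (op s0) = c + 2 →
    (∀ p q r t : ZMod (2 * c), [p, q, r, t].Nodup → ¬ (cl w s p = cl w s q ∧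
      cl w s p = cl w s r ∧ cl w s p = cl w s t)) →
        ∀ p, s (w p) = s0 (w p) ↔ s (w (p + 1)) = s0 (w (p + 1))

/-- **MON** (easy-medium; uses GFW, PRW, NLP, CRC, MNE).  The row for `MonStmt` of StmtsA (theorem
`mon (..) : Pool.Agent.ACK.MonStmt`).
PROOF.  `w = wd c l` has `Gf`, `PrF` and no loops (GFW, PRW, NLP with `n = 2 c ≥ 6`); `s0` from `Kn.pl`.  By MNE the proposition
`s (w p) = s0 (w p)` has the same truth value for all `p` (induction on `k` for `p = (k : ZMod (2 c))`).  If it is true, CRC (3): `nc w s = nc w s0`,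
`nc w (op s) = nc w (op s0)`.  If it is false, `s (w p) = op s0 (w p)` for all `p`, CRC (3) with `s' = op s0`: `nc w s = nc w (op s0)`,
`nc w (op s) = nc w (op (op s0)) = nc w s0`. -/
def MonRow : Prop := MonStmt

end Pool.Agent.ACK.B
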