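import Pool.Agent.ACK.StmtsA

/-!
# Squad ACK (MP_0b396c_gt), parts C and E: classification of the words with six chains (statements with
proofs)

The possible token lists are found by a depth first search (`gen`); reversed lists are used, the head is
the last token.  Gap `k` = the edge behind the token `k` (`gp c C b k`), `k < 12`.
Every row: file `Pool/Agent/HelperNN_ACK/XXX.lean`, import `Pool.Agent.ACK.StmtsC`, namespace
`Pool.Agent.ACK.HNN`, theorem `xxx (hypotheses = rows in uses, in this order) : C.XxxStmt`.
-/

set_option autoImplicit false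

namespace Pool.Agent.ACK.C

/-- number of the tokens of the chain `e` -/
def cnt (e : ℕ) : List Tk → ℕ
  | [] => 0
  | t :: r => bif t.1 == e then cnt e r + 1 else cnt e r

/-- number of names in a normalized list -/
def nn : List Tk → ℕ
  | [] => 0
  | t :: r => max (t.1 + 1) (nn r)

/-- position and direction of the last token of the chain `e` (reversed list) -/
def mt (e : ℕ) : List Tk → Option (ℕ × Bool)
  | [] => none
  | t :: r => bif t.1 == e then some (r.length, t.2) else mt e r

/-- the relations between the gaps which come from the token `t` at the position `r.length` -/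
def nr (t : Tk) (r : List Tk) : List (ℕ × ℕ) :=
  match mt t.1 r with
  | none => []
  | some (x, d) =>
    bif d == t.2 then [((x + 11) % 12, (r.length + 11) % 12), (x, r.length)]
    else [((x + 11) % 12, r.length), (x, (r.length + 11) % 12)]

/-- neighbours -/
def nb (a : ℕ) : List (ℕ × ℕ) → List ℕ
  | [] => []
  | p :: R => bif p.1 == a then p.2 :: nb a R else bif p.2 == a then p.1 :: nb a R else nb a R

/-- four different numbers -/
def d4 (x y z t : ℕ) : Bool :=
  !(x == y) && !(x == z) && !(x == t) && !(y == z) && !(y == t) && !(z == t)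

/-- no path with four gaps through the new relation `a, b` -/
def ok3 (a b : ℕ) (R : List (ℕ × ℕ)) : Bool :=
  (nb a R).all (fun x => (nb b R).all (fun y => !(d4 x a b y)) && (nb x R).all (fun z => !(d4 z x a b))) &&
  (nb b R).all (fun y => (nb y R).all (fun z => !(d4 a b y z)))

def ad : List (ℕ × ℕ) → List (ℕ × ℕ) → Option (List (ℕ × ℕ))
  | [], R => some R
  | p :: P, R => bif ok3 p.1 p.2 R then ad P (p :: R) else none

/-- the other direction -/
def br (t : Tk) : Tk := (t.1, !t.2)

/-- equality of tokens as a Boolean -/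
def te (t u : Tk) : Bool := (t.1 == u.1) && (t.2 == u.2)

/-- somewhere in the reversed list: the token `u` followed by `t` -/
def adj (u t : Tk) : List Tk → Bool
  | [] => false
  | a :: r => (match r with
    | [] => false
    | b :: _ => te a t && te b u) || adj u t r

/-- local condition for the new token -/
def okh (t : Tk) (r : List Tk) : Bool :=
  match r with
  | [] => true
  | u :: _ => !(te (br t) u) && !(adj u t r) && !(adj (br t) (br u) r)

/-- candidates for the next token -/
def cand (r : List Tk) : List Tk :=
  (bif Nat.blt (nn r) 6 then [(nn r, false)] else []) ++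
  (List.range (nn r)).flatMap (fun e => bif cnt e r == 1 then [(e, false), (e, true)] else [])

def stepl (x : List Tk × List (ℕ × ℕ)) : List (List Tk × List (ℕ × ℕ)) :=
  (cand x.1).flatMap (fun t => bif okh t x.1 then (match ad (nr t x.1) x.2 with
    | none => []
    | some R => [(t :: x.1, R)]) else [])

def gen : ℕ → List (List Tk × List (ℕ × ℕ))
  | 0 => [([], [])]
  | k + 1 => (gen k).flatMap stepl

/-- every chain of the list is passed twice in it -/
def cls (l : List Tk) : Bool := l.all (fun t => cnt t.1 l == 2)

/-- a closed proper interval of the token list -/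
def npr (r : List Tk) : Bool :=
  (List.range 12).any (fun i => (List.range 11).any (fun m =>
    Nat.ble (i + m + 1) 12 && cls ((r.drop i).take (m + 1))))

/-- the chains of the reversed list: positions, same direction, name -/
def chs : List Tk → List (ℕ × ℕ × Bool × ℕ)
  | [] => []
  | t :: r => match mt t.1 r with
    | none => chs r
    | some (x, d) => (x, r.length, d == t.2, t.1) :: chs r

/-- the relations between the white faces at the gaps; `p e = true`: odd number of crossings -/
def wrel (p : ℕ → Bool) : List (ℕ × ℕ × Bool × ℕ) → List (ℕ × ℕ)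
  | [] => []
  | (x, y, d, e) :: L =>
    bif p e then (bif d then (y, (x + 11) % 12) :: (x, (y + 11) % 12) :: wrel p L
      else (x, y) :: ((x + 11) % 12, (y + 11) % 12) :: wrel p L)
    else ((x + 11) % 12, x) :: ((y + 11) % 12, y) :: wrel p L

/-- merging of two labels -/
def mrg (l : List ℕ) (a : ℕ × ℕ) : List ℕ :=
  let u := l.getD a.1 0
  let v := l.getD a.2 0
  l.map (fun z => bif z == u then v else z)

/-- number of the different labels after merging -/
def wn (p : ℕ → Bool) (r : List Tk) : ℕ :=
  let l := (wrel p (chs r)).foldl mrg (List.range 12)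
  ((List.range 12).filter (fun k => l.any (fun z => z == k))).length

/-- `l'` is `l` with other names and directions of the chains -/
def iso : List Tk → List Tk → Bool
  | [], [] => true
  | t :: l, t' :: l' => iso l l' && (l.zip l').all (fun u =>
      ((t.1 == u.1.1) == (t'.1 == u.2.1)) &&
      (!(t.1 == u.1.1) || (xor t.2 t'.2 == xor u.1.2 u.2.2)))
  | _, _ => false

/-- the other direction of the whole word -/
def rvs (l : List Tk) : List Tk := (l.map br).reverse

/-- parities agree -/
def par (p p' : ℕ → Bool) (l l' : List Tk) : Bool := (l.zip l').all (fun u => p u.1.1 == p' u.2.1)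

/-- the standard word of the K4 type for even `c` -/
def bE : List Tk := [(2, false), (0, false), (1, false), (2, false), (3, false), (4, false), (1, false),
  (5, false), (3, true), (0, false), (4, true), (5, true)]

/-- parities of `bE` -/
def pE : ℕ → Bool := fun e => !(e == 0 || e == 1)

/-- the word of the other type for even `c`, starting at a chain which can be moved -/
def bX : List Tk := [(2, false), (3, false), (4, false), (2, true), (1, false), (5, false), (3, true),
  (4, true), (5, true), (0, false), (1, false), (0, false)]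

/-- all rotations of the list and of the reversed list -/
def sy (l : List Tk) : List (List Tk) :=
  (List.range 12).map (fun k => l.rotate k) ++ (List.range 12).map (fun k => (rvs l).rotate k)

def fin (p : ℕ → Bool) (r : List Tk) : Bool :=
  Nat.blt (wn p r) 4 || (let b := r.reverse; (sy b).any (fun l => iso l bE && par p pE l bE) || (sy b).any (fun l => iso l bX))

/-- the parities with even sum -/
def evp : List (List Bool) :=
  ((List.range 64).map (fun n => (List.range 6).map (fun k => Nat.testBit n k))).filter
    (fun l => (l.filter id).length % 2 == 0)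

def finall (r : List Tk) : Bool := npr r || evp.all (fun l => fin (fun e => l.getD e false) r)


/-! # Statements -/

/-- the `k`-th token -/
def tk (b : List Tk) (k : ℕ) : Tk := b.getD k (0, false)

/-- normalized reversed token list: every token is a candidate -/
def nz : List Tk → Bool
  | [] => true
  | t :: r => nz r && (cand r).any (te t)

/-- **LET** (medium; uses CWG, GPB).  The letters at the gaps.
PROOF. Let `n = b.length`, `l = BL C b`, `k < n`.  By GPB `l.rotate ((gp c C b k).val + 1) = BL C (b.rotate (k + 1))`, and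
`b.rotate (k + 1)` begins with the token `tk b ((k + 1) % n)` and ends with the token `tk b k`
(`List.getElem_rotate`, `List.head_rotate`, ..).  The blocks are not empty (`ne`), so the rotated word begins with the first
letter `y` of the block of `tk b ((k + 1) % n)` and ends with the last letter `x` of the block of `tk b k`.  The first letter of
`l.rotate (v + 1)` is `l[(v + 1) % (2 c)]`, the last one is `l[v]` (`v = (gp c C b k).val < 2 c`); `(gp c C b k + 1).val =
(v + 1) % (2 c)` (`ZMod.val_add`, `ZMod.val_one`, note `2 c ≥ 2`).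
(2) If `gp c C b k + 1 = gp c C b k'`: `L k` as in GPB, `gp k = L k - 1`; let `k1 = (k + 1) % n`.  In `ZMod (2 c)`:
`gp k1 = gp k + |block of k1|` (`L (k + 1) = L k + |block|` if `k + 1 < n`; if `k + 1 = n`: `L k = 2 c = 0`, `L 0 = |block 0|`).  If the
block of `k1` has length `1` then `gp k' = gp k1`, so `k' = k1` by GPB (2).  Otherwise its first letter, at the position
`gp k + 1 = gp k'`, is not its last letter: the position `gp k'` is the last position of the block of `k'`; the blocks are
disjoint intervals of positions, `k' = k1`, but then `gp k + 1 = gp k1 = gp k + |block|`, so `|block| = 1` in `ZMod (2 c)`,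
`|block| < 2 c`: contradiction.  (Easier: `L` is strictly increasing; `gp k + 1 = gp k'` means `L k + 1 = L k'` (or `L k = 2 c`, `L k' = 1`);
then no `L j` is strictly between, so `k' = k + 1` (or `k = n - 1`, `k' = 0`).) -/
def LetStmt : Prop := ∀ (c : ℕ) (C : ℕ → List ℕ) (b : List Tk), 1 ≤ c → CW C b →
  (BL C b).length = 2 * c → ∀ k < b.length,
    (∃ (x y : ℕ) (X Y : List ℕ), bk C (tk b k) = X ++ [x] ∧
      bk C (tk b ((k + 1) % b.length)) = y :: Y ∧ wd c (BL C b) (gp c C b k) = x ∧
      wd c (BL C b) (gp c C b k + 1) = y) ∧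
    (gp c C b ((k + 1) % b.length) =
      gp c C b k + ((bk C (tk b ((k + 1) % b.length))).length : ZMod (2 * c))) ∧
    ∀ k' < b.length, gp c C b k + 1 = gp c C b k' → k' = (k + 1) % b.length

/-- **LOO** (easy-medium; uses GFW, PRW, NLP, CWG, LET).  No loops.
PROOF. `c ≥ 6` (`b.length = 12 ≤ 2 c`, CWG).  If `tk b ((k + 1) % 12) = br (tk b k)` then the block of the token
`(k + 1) % 12` is the reversed block of the token `k` (`bk C (br t) = (bk C t).reverse`), so its first letter is the last letter of
the block of `k`: by LET `wd (gp k) = wd (gp k + 1)`.  GFW, PRW, NLP for `BL C b` (`Sx.kn`): contradiction. -/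
def LooStmt : Prop := ∀ (c : ℕ) (C : ℕ → List ℕ) (b : List Tk) (s : ℕ → Bool), Sx c C b s →
  ∀ k < 12, tk b ((k + 1) % 12) ≠ br (tk b k)

/-- **BIG** (medium; uses CWG, GPB, LET).  No double relations.
PROOF. `p = gp c C b k`, `q = gp c C b k'`, `w = wd c (BL C b)`; `p ≠ q` by GPB.  Let `x`, `y` be the last letter of the block of
`tk b k` and the first letter of the block of `tk b ((k + 1) % 12)`; `w p = x`, `w (p + 1) = y` (LET).
(1) Suppose both tokens agree.  Then `w q = x`, `w (q + 1) = y` (LET for `k'`), and `s x = false`: `tk b k`, `tk b k'` are equal tokens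
at two different places (`Ty` with the decomposition of `b` at these places), `s y = false` in the same way.  So
`Bg w s p q`, contradiction to `Sx.gb`.
(2) Suppose `tk b k' = br (tk b ((k + 1) % 12))`, `tk b ((k' + 1) % 12) = br (tk b k)`.  The last letter of the block of `k'` is `y`, the
first letter of the block of `k' + 1` is `x`: `w q = y = w (p + 1)`, `w (q + 1) = x = w p`.  `s y = true`: the tokens at `k'` and `(k + 1) % 12`
have the same chain and different directions (so they are at different places, `Ty`); `s x = true` in the same way.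
`q + 1 ≠ p`: otherwise `k = (k' + 1) % 12` by LET, `tk b k = br (tk b k)`, impossible.  `p + 1 ≠ q`: otherwise
`k' = (k + 1) % 12`, `tk b k' = br (tk b k')`.  So `Bg w s p q`: contradiction to `Sx.gb`. -/
def BigStmt : Prop := ∀ (c : ℕ) (C : ℕ → List ℕ) (b : List Tk) (s : ℕ → Bool), Sx c C b s →
  ∀ k < 12, ∀ k' < 12, k ≠ k' →
    ¬ (tk b k' = tk b k ∧ tk b ((k' + 1) % 12) = tk b ((k + 1) % 12)) ∧
    ¬ (tk b k' = br (tk b ((k + 1) % 12)) ∧ tk b ((k' + 1) % 12) = br (tk b k))

/-- **CIR** (medium; uses CWG, LET).  The circles of `s` at the gaps.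
PROOF. Let `X`, `Y` be the blocks of the tokens at `x < y`, `x' = (x + 11) % 12`, `y' = (y + 11) % 12` (`(x' + 1) % 12 = x`), `w = wd c (BL C b)`.
Same direction: `X = Y`, `s z = false` for all its letters (`Ty`).  First letter `z`: it is at the positions
`i = gp x' + 1`, `j = gp y' + 1` (LET), `i ≠ j`; `CR w s (i - 1) (j - 1)`.  Last letter: positions `i = gp x`, `j = gp y`: `CR w s i j`.
Other direction: `Y = X.reverse`, `s z = true`.  First letter of `X` = last letter of `Y`: positions `i = gp x' + 1`, `j = gp y`:
`CR w s (i - 1) j`.  Last letter of `X` = first letter of `Y`: positions `i = gp y' + 1`, `j = gp x`: `CR w s (i - 1) j`, that is `gp y'`, `gp x`.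
The positions are different: by `Gf` it is enough that the two occurrences are in different blocks; or: if `i = j`
then `gp x' = gp y'` (GPB) in the case of the same direction; in the other case `gp x' + 1 = gp y` gives `y = x` (LET (3)). -/
def CirStmt : Prop := ∀ (c : ℕ) (C : ℕ → List ℕ) (b : List Tk) (s : ℕ → Bool), Sx c C b s →
  ∀ x y, x < y → y < 12 → (tk b x).1 = (tk b y).1 →
    ((tk b x).2 = (tk b y).2 →
      cl (wd c (BL C b)) s (gp c C b ((x + 11) % 12)) = cl (wd c (BL C b)) s (gp c C b ((y + 11) % 12)) ∧
      cl (wd c (BL C b)) s (gp c C b x) = cl (wd c (BL C b)) s (gp c C b y)) ∧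
    ((tk b x).2 ≠ (tk b y).2 →
      cl (wd c (BL C b)) s (gp c C b ((x + 11) % 12)) = cl (wd c (BL C b)) s (gp c C b y) ∧
      cl (wd c (BL C b)) s (gp c C b x) = cl (wd c (BL C b)) s (gp c C b ((y + 11) % 12)))

/-- **DFS** (medium; uses GPB, LOO, BIG, CIR).  The list is found by the depth first search.
PROOF. By induction on `k ≤ 12` for `r = (b.take k).reverse`: there is `R` with `(r, R) ∈ gen k` and for all `(a, a') ∈ R`:
`a < 12`, `a' < 12`, `gp a` and `gp a'` are in the same circle of `s`.  Step from `k` to `k + 1 ≤ 12`: `t = tk b k`,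
`(b.take (k + 1)).reverse = t :: r`.  (i) `t ∈ cand r`: `nz (b.reverse)` gives `nz` for all suffixes of `b.reverse`, and `te t t' = true` iff
`t = t'`.  (ii) `okh t r`: if `k ≥ 1`, `r = u :: ..`, `u = tk b (k - 1)`; `te (br t) u` would give `t = br u`: LOO; `adj u t r` gives a place `k' < k - 1` with
`tk b k' = u`, `tk b (k' + 1) = t` (`r` is reversed: consecutive elements `t, u` of `r`): BIG (1) for `k - 1`, `k'`;
`adj (br t) (br u) r`: a place `k'` with `tk b k' = br t`, `tk b (k' + 1) = br u`: BIG (2).  (iii) `ad (nr t r) R ≠ none`, and the new pairs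
have the property: `mt t.1 r = some (x, d)` gives `x < k`, `tk b x = (t.1, d)`; `nr t r` are the pairs of CIR for `x < k = r.length`, so they have the property.  If `ok3 a a' R'`
is false for a pair with the property and a list `R'` of pairs with the property, then there are four different numbers
`< 12` whose gap edges are in the same circle; the four edges are different by GPB (2): contradiction to
`Sx.sm`.  (`x ∈ nb a R` iff `(a, x) ∈ R` or `(x, a) ∈ R`, one direction is needed.) -/
def DfsStmt : Prop := ∀ (c : ℕ) (C : ℕ → List ℕ) (b : List Tk) (s : ℕ → Bool), Sx c C b s →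
  nz b.reverse = true → ∃ R, (b.reverse, R) ∈ gen 12

/-- **PRM** (medium; uses CWG).  No closed proper interval.
PROOF. Suppose `npr b.reverse`: `b.reverse = P ++ M ++ Q`, `M` of length `m + 1 ≤ 11`, `cls M`.  So `b = Q.reverse ++ M.reverse ++ P.reverse`, `M' = M.reverse`
is not empty, `N = P.reverse ++ Q.reverse` is not empty (length `12 - (m + 1)`), and every chain of `M'` has two tokens in `M'`
(`cnt e l = (l.map Prod.fst).count e`).  `(BL C b).rotate k = BL C M' ++ BL C N` for `k` = the length of `BL C Q.reverse`, both parts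
are not empty.  `Kn.pr`: a letter `x` in both: `x ∈ C e`, `x ∈ C e'`, `e` a chain of `M'`, `e'` of `N`; `e = e'` by `dj`; then `e` has at
least three tokens in `b`: contradiction to `tw`. -/
def PrmStmt : Prop := ∀ (c : ℕ) (C : ℕ → List ℕ) (b : List Tk) (s : ℕ → Bool), Sx c C b s →
  npr b.reverse = false

/-- **LDS** (medium-strong; uses CWG, LET).  The steps of the ladder of a chain, for the opposite state.
`j`-th edge of the passage at `x`: `gp ((x + 11) % 12) + j`, `0 ≤ j ≤ a` (`a` crossings in the chain); `j = a`: `gp x`.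
PROOF. `w = wd c (BL C b)`.  The letter at the position `gp ((x + 11) % 12) + j + 1` (`j < a`) is the `j`-th letter of the block of the
token `x`: GPB (1) for `k = (x + 11) % 12`: the rotated word begins with this block.
Same direction: the blocks agree, `s = false` on them, `op s = true`.  The `j`-th letter is at `i = gp x' + j + 1` and
`i' = gp y' + j + 1` (`x' = (x + 11) % 12`, ..): `CR w (op s) (i - 1) i'` and `CR w (op s) (i' - 1) i`.
Other direction: the block of `y` is the reversed block of `x`, `s = true`, `op s = false`: the `j`-th letter of the block of `x` is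
the letter `a - 1 - j` of the block of `y`: positions `i = gp x' + j + 1`, `i' = gp y' + (a - 1 - j) + 1`: `CR w (op s) (i - 1) (i' - 1)`,
`CR w (op s) i i'`.  (`i ≠ i'`: different blocks.) -/
def LdsStmt : Prop := ∀ (c : ℕ) (C : ℕ → List ℕ) (b : List Tk) (s : ℕ → Bool), Sx c C b s →
  ∀ x y, x < y → y < 12 → (tk b x).1 = (tk b y).1 → ∀ j < (C (tk b x).1).length,
    ((tk b x).2 = (tk b y).2 →
      cl (wd c (BL C b)) (op s) (gp c C b ((x + 11) % 12) + j) =
        cl (wd c (BL C b)) (op s) (gp c C b ((y + 11) % 12) + (j + 1)) ∧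
      cl (wd c (BL C b)) (op s) (gp c C b ((y + 11) % 12) + j) =
        cl (wd c (BL C b)) (op s) (gp c C b ((x + 11) % 12) + (j + 1))) ∧
    ((tk b x).2 ≠ (tk b y).2 →
      cl (wd c (BL C b)) (op s) (gp c C b ((x + 11) % 12) + j) =
        cl (wd c (BL C b)) (op s) (gp c C b ((y + 11) % 12) +
          (((C (tk b x).1).length - 1 - j : ℕ) : ZMod (2 * c))) ∧
      cl (wd c (BL C b)) (op s) (gp c C b ((x + 11) % 12) + (j + 1)) =
        cl (wd c (BL C b)) (op s) (gp c C b ((y + 11) % 12) +
          (((C (tk b x).1).length - j : ℕ) : ZMod (2 * c))))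

/-- **LAD** (medium; uses CWG, LET, LDS).  The circles of the opposite state at the gaps.
PROOF. `a = (C e).length`, `e` the chain; `E x j = gp ((x + 11) % 12) + j`, `E x a = gp x` (LET (2) for `k = (x + 11) % 12`).  By LDS:
same direction: `E x j ~ E y (j + 1) ~ E x (j + 2)` (`j + 2 ≤ a`), and the same with `x`, `y` exchanged; so `E x a ~ E x 0` for even
`a`, `E x a ~ E x 1 ~ E y 0` for odd `a`, and with `x`, `y` exchanged.
Other direction: `E x j ~ E y (a - 1 - j)` (`j < a`), `E x (j + 1) ~ E y (a - j)` (`j < a`), so `E x j ~ E y (a - 1 - j) ~ E x (j + 2)` (the second relation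
with `j + 1` in place of `j`: `a - (j + 1) = a - 1 - j`), and `E y m ~ E y (m + 2)`.  Even `a`: `E x a ~ E x 0`, `E y a ~ E y 0`.  Odd `a`:
`E x a ~ E x 1 ~ E y a` (`j = 0`), `E x 0 ~ E y (a - 1) ~ E y 0`. -/
def LadStmt : Prop := ∀ (c : ℕ) (C : ℕ → List ℕ) (b : List Tk) (s : ℕ → Bool), Sx c C b s →
  ∀ x y, x < y → y < 12 → (tk b x).1 = (tk b y).1 →
    (Even (C (tk b x).1).length →
      cl (wd c (BL C b)) (op s) (gp c C b ((x + 11) % 12)) = cl (wd c (BL C b)) (op s) (gp c C b x) ∧
      cl (wd c (BL C b)) (op s) (gp c C b ((y + 11) % 12)) = cl (wd c (BL C b)) (op s) (gp c C b y)) ∧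
    (Odd (C (tk b x).1).length → (tk b x).2 = (tk b y).2 →
      cl (wd c (BL C b)) (op s) (gp c C b y) = cl (wd c (BL C b)) (op s) (gp c C b ((x + 11) % 12)) ∧
      cl (wd c (BL C b)) (op s) (gp c C b x) = cl (wd c (BL C b)) (op s) (gp c C b ((y + 11) % 12))) ∧
    (Odd (C (tk b x).1).length → (tk b x).2 ≠ (tk b y).2 →
      cl (wd c (BL C b)) (op s) (gp c C b x) = cl (wd c (BL C b)) (op s) (gp c C b y) ∧
      cl (wd c (BL C b)) (op s) (gp c C b ((x + 11) % 12)) =
        cl (wd c (BL C b)) (op s) (gp c C b ((y + 11) % 12)))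

/-- **SUR** (medium; uses CWG, LET, LDS).  Every circle of the opposite state contains a gap edge.
PROOF. Every edge is `E z j = gp ((z + 11) % 12) + j` with `z < 12`, `1 ≤ j ≤ a`, `a` the length of the block of `z` (the intervals of positions
of the blocks cover `ZMod (2 c)`: `gp z = gp ((z + 11) % 12) + a` (LET (2)), the sum of the twelve lengths is `2 c`; e.g. the largest `k`
with `L k ≤ p.val`, `gp k = L k - 1`).  Let `z'` be the other place of the chain of `z` and use LDS for the pair (ordered by size).  Induction
on `j`: `j = 0`: a gap edge.  Same direction: `E z (j + 1) ~ E z' j`: claim for all `j` and both places at once.  Other direction: `E z j ~ E z (j + 2)` (as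
in LAD), so it is enough to have `j = 0` (a gap edge) and `j = 1`: `E z 1 ~ E z' a = gp z'`. -/
def SurStmt : Prop := ∀ (c : ℕ) (C : ℕ → List ℕ) (b : List Tk) (s : ℕ → Bool), Sx c C b s →
  ∀ p, ∃ k < 12, cl (wd c (BL C b)) (op s) p = cl (wd c (BL C b)) (op s) (gp c C b k)

/-- **LBL** (easy-medium; uses nothing).  Merging of labels.
PROOF. Invariant of the merging (`foldl`, induction on `L`, for a general start list `l` of length 12): if `i, j < 12` have the same label
then `F i = F j`, and all labels are `< 12`.  Start: `List.range 12`.  One step with `(a, a')`: labels `u` of `a`, `v` of `a'`; all labels `u` become `v`; if `i` had the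
label `u` and `j` the label `v`: `F i = F a = F a' = F j`.  At the end choose for every value `F i` (`i < 12`) the label of such an `i`:
injective, and all labels are in the filtered list. -/
def LblStmt : Prop := ∀ (α : Type) (F : ℕ → α) (L : List (ℕ × ℕ)),
  (∀ p ∈ L, p.1 < 12 ∧ p.2 < 12 ∧ F p.1 = F p.2) →
    Set.ncard (F '' {k | k < 12}) ≤
      ((List.range 12).filter (fun k => (L.foldl mrg (List.range 12)).any (fun z => z == k))).length

/-- **WHT** (medium; uses LAD, SUR, LBL).  The number of the white faces.
PROOF. `p e = decide (Odd (C e).length)`.  `F k = cl (wd ..) (op s) (gp c C b k)`.  The members of `wrel p (chs b.reverse)` are pairs of numbers `< 12` with equal `F`: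
every `(x, y, d, e) ∈ chs b.reverse` has `x < y < 12`, `(tk b x).1 = (tk b y).1 = e`, `d = (b[x].2 == b[y].2)` (the reversed list:
`mt e r` is the last place `< r.length` with the chain `e`, and its direction), LAD.  By SUR the set of the circles is
the image of `{k | k < 12}` under `F`: `nc = ncard (range of cl) = ncard (F '' ..)`.  LBL. -/
def WhtStmt : Prop := ∀ (c : ℕ) (C : ℕ → List ℕ) (b : List Tk) (s : ℕ → Bool), Sx c C b s →
  nc (wd c (BL C b)) (op s) ≤ wn (fun e => decide (Odd (C e).length)) b.reverse

/-- **TRN** (medium; uses nothing).  Other names and directions of the chains.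
PROOF. `C' n` = if `n = g t.1` for some `t ∈ b` (unique name `e = t.1`): `C e` or, if `φ e`, `(C e).reverse`; otherwise `[]`
(choice).  `bk C' (g t.1, xor (φ t.1) t.2) = bk C t` for `t ∈ b` (four cases, `List.reverse_reverse`), so the blocks
are the same.  `CW`: `tw`: the counts of `g e` in the list of the new names is the count of `e` (`List.count_map_of_injective`-like, injective on the
members); the lists are the same up to reversal.  `Ty`: a decomposition of `b.map f` comes from a decomposition of `b`
(`List.map_eq_append_iff`, `List.map_eq_cons_iff`), `xor` with the same `φ e` does not change `t.2 = t'.2`. -/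
def TrnStmt : Prop := ∀ (C : ℕ → List ℕ) (b : List Tk) (g : ℕ → ℕ) (φ : ℕ → Bool), CW C b →
  (∀ t ∈ b, ∀ t' ∈ b, g t.1 = g t'.1 → t.1 = t'.1) →
    ∃ C' : ℕ → List ℕ, CW C' (b.map (fun t => (g t.1, xor (φ t.1) t.2))) ∧
      (∀ t ∈ b, bk C' (g t.1, xor (φ t.1) t.2) = bk C t ∧ (C' (g t.1)).length = (C t.1).length) ∧
      ∀ s, Ty C b s → Ty C' (b.map (fun t => (g t.1, xor (φ t.1) t.2))) s

/-- **NRA** (medium; uses nothing).  Normal names.
PROOF. Induction on `k ≤ b.length` for the initial parts `b.take k`: there are `g`, `φ` with: `g` is injective on the names in the initial part, the set of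
the values is `{0, .., m - 1}`, `m` the number of the different names, `nn` of the new reversed list is `m`, and `nz` is true.  The number of the names
in `b` is `6` (twelve tokens, each name twice).  Step with the token `t`: (i) `t.1` is a name of the initial part: the same `g`, `φ`; its count in
the initial part is `1` (count `2` in `b`), the count of `g t.1` in the new list is also `1` (injective), `g t.1 < nn`, so the new token is a candidate.
(ii) a new name: `m < 6`, `g' = Function.update g t.1 m`, `φ' = Function.update φ t.1 t.2`: the new token is `(m, false)`, `xor a a = false`. -/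
def NraStmt : Prop := ∀ b : List Tk, Gw (b.map Prod.fst) → b.length = 12 →
  ∃ (g : ℕ → ℕ) (φ : ℕ → Bool), (∀ t ∈ b, ∀ t' ∈ b, g t.1 = g t'.1 → t.1 = t'.1) ∧
    (∀ t ∈ b, g t.1 < 6) ∧ nz (b.map (fun t => (g t.1, xor (φ t.1) t.2))).reverse = true

/-- **NRM** (medium; uses TRN, NRA).  Normalization.
PROOF. NRA for `b` (`Sx.cw.tw`), TRN.  `b' = b.map f`: all blocks are the same, so `BL C' b' = BL C b`, `BL C' (b'.take k) = BL C (b.take k)`, `gp c C' b' = gp c C b`.
All fields of `Sx` are transported. -/
def NrmStmt : Prop := ∀ (c : ℕ) (C : ℕ → List ℕ) (b : List Tk) (s : ℕ → Bool), Sx c C b s →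
  ∃ (C' : ℕ → List ℕ) (b' : List Tk), BL C' b' = BL C b ∧ Sx c C' b' s ∧
    nz b'.reverse = true ∧ ∀ t ∈ b', t.1 < 6

/-- **FIN** (computation; helper88).  The classification. -/
def FinStmt : Prop := ∀ x ∈ gen 12, finall x.1 = true

/-- **ISO** (medium; uses nothing).  PROOF. `iso l l' = true` gives (induction) the same length and for all `i, j`: `l[i].1 = l[j].1` iff
`l'[i].1 = l'[j].1`, and in this case `xor l[i].2 l'[i].2 = xor l[j].2 l'[j].2`.  (The recursion compares the head with all
members of the tail, also the head pair itself is no condition.)  `g e` = the name in `l'` at the first place of `e` in `l`,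
`φ e` = `xor` of the directions there; `xor (xor a b) a = b`. -/
def IsoStmt : Prop := ∀ l l' : List Tk, iso l l' = true → ∃ (g : ℕ → ℕ) (φ : ℕ → Bool),
  (∀ t ∈ l, ∀ t' ∈ l, g t.1 = g t'.1 → t.1 = t'.1) ∧
    l' = l.map (fun t => (g t.1, xor (φ t.1) t.2))

/-- **MTC** (medium; uses RTK, TRN, ISO).  Matching.
PROOF. `b' ∈ sy b`: `b' = b.rotate k` or `b' = (rvs b).rotate k`.  `BL C (rvs b) = (BL C b).reverse` (`bk C (br t) = (bk C t).reverse`,
`List.reverse_flatMap` or induction), `Mv.rev`; `CW C (rvs b)` (permutation of the names); rotation: RTK and `Mv.rot` (`List.IsRotated`: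
`l' = l.rotate n = l.drop .. ++ l.take ..`).  So `CW C b'` and `Quot.mk (BL C b') = Quot.mk (BL C b)`.  ISO gives `g`, `φ` for `b'`, `B`;
TRN: `C'` with `BL C' B = BL C b'` (the blocks agree).  Names of `b'` are names of `b`. -/
def MtcStmt : Prop := ∀ (C : ℕ → List ℕ) (b b' B : List Tk), CW C b → b' ∈ sy b → iso b' B = true →
  b.length = 12 → ∃ (C' : ℕ → List ℕ), CW C' B ∧ Quot.mk Mv (BL C b) = Quot.mk Mv (BL C' B) ∧
    (BL C' B).length = (BL C b).length ∧
    ∀ u ∈ b'.zip B, (C' u.2.1).length = (C u.1.1).length

/-- **SYM** (easy; uses MTC).  The symmetry of the standard word.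
PROOF. `b' = (rvs bE).rotate 8 ∈ sy bE`, `iso b' bE = true` (`decide`); `b'.zip bE` shows the new names: `0` and `1` are exchanged, `3` and `5` are
exchanged, `2`, `4` are fixed.  MTC for `b = B = bE`. -/
def SymStmt : Prop := ∀ C : ℕ → List ℕ, CW C bE → ∃ C' : ℕ → List ℕ, CW C' bE ∧
  Quot.mk Mv (BL C bE) = Quot.mk Mv (BL C' bE) ∧ (BL C' bE).length = (BL C bE).length ∧
  (C' 0).length = (C 1).length ∧ (C' 1).length = (C 0).length ∧ (C' 2).length = (C 2).length ∧
  (C' 3).length = (C 5).length ∧ (C' 4).length = (C 4).length ∧ (C' 5).length = (C 3).length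

/-- **BFL** (medium; uses nothing).  Flype of a whole chain (third kind).
PROOF. Induction on `X` from the end (`List.reverseRecOn`), for all `A`, `B`.  `X = []`: equality.  `X = Y ++ [x]`:
`Y ++ [x] ++ U ++ ([x] ++ Y.reverse) ++ A ++ V ++ B` is by `Mv.rot` equivalent to
`x :: (U ++ x :: ((Y.reverse ++ A) ++ (V ++ (B ++ Y))))`, by `Mv.fl3` to `U ++ ((Y.reverse ++ A) ++ x :: (V ++ x :: (B ++ Y)))`, by `Mv.rot` to
`Y ++ (U ++ (Y.reverse ++ ((A ++ [x]) ++ (V ++ (x :: B)))))`; induction hypothesis with `A ++ [x]`, `x :: B`:
`U ++ ((A ++ [x]) ++ (Y.reverse ++ (V ++ (Y ++ (x :: B)))))`, and `[x] ++ Y.reverse = (Y ++ [x]).reverse`. -/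
def BflStmt : Prop := ∀ X U A V B : List ℕ, Gw (U ++ V) →
  Quot.mk Mv (X ++ (U ++ (X.reverse ++ (A ++ (V ++ B))))) =
    Quot.mk Mv (U ++ (A ++ (X.reverse ++ (V ++ (X ++ B)))))

/-- **EXX** (medium; uses CWG, BFL).  The other type.
PROOF. `BL C bX = X ++ (U ++ (X.reverse ++ (A ++ (V ++ B))))` with `X = C 2`, `U = C 3 ++ C 4`, `A = C 1 ++ C 5`, `V = (C 3).reverse ++ (C 4).reverse`,
`B = (C 5).reverse ++ C 0 ++ C 1 ++ C 0`; `Gw (U ++ V)`: the letters of the chains `3` and `4`, each twice.  BFL: the word is equivalent to
`C 3 ++ C 4 ++ C 1 ++ C 5 ++ (C 2).reverse ++ (C 3).reverse ++ (C 4).reverse ++ C 2 ++ (C 5).reverse ++ C 0 ++ C 1 ++ C 0 = BL C' b'` with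
`C' = Function.update C 5 (C 5 ++ (C 2).reverse)`, `b' = [3, 4, 1, 5, 3̄, 4̄, 5̄, 0, 1, 0]` (bar: direction `true`), ten tokens:
`(C' 5).reverse = C 2 ++ (C 5).reverse`.  `CW C' b'` from `CW C bX`; the length does not change. -/
def ExxStmt : Prop := ∀ (c : ℕ) (C : ℕ → List ℕ), CW C bX → (BL C bX).length = 2 * c →
  ∃ l', Fw c l' ∧ Quot.mk Mv (BL C bX) = Quot.mk Mv l'

/-- **PAR** (medium; uses CWG).  The parities.
PROOF. `npr b.reverse = false`, so `finall` gives `fin (fun e => l.getD e false) b.reverse = true` for all `l ∈ evp`.  Let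
`l = (List.range 6).map (fun e => decide (Odd (C e).length))`.  The twelve tokens of `b` have names `< 6`, every name has `0` or `2` tokens
(`tw`), so all six names occur, each twice, and by CWG `2 c = ∑ over the tokens = 2 ∑_{e < 6} |C e|`: `c = ∑_{e < 6} |C e|` is even, the
number of the odd lengths is even, `l ∈ evp` (generalize the six Boolean values: `decide` over `Bool^6`).  `fun e => l.getD e false` and
`p = fun e => decide (Odd (C e).length)` agree for `e < 6`; `wn` and `par` use the values at the names of `b` only (congruence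
lemmas by induction on the list: `chs`, `wrel`; `par`: the members of `b'.zip B`, `b' ∈ sy b`, have names of `b`). -/
def ParStmt : Prop := ∀ (c : ℕ) (C : ℕ → List ℕ) (b : List Tk) (s : ℕ → Bool), Even c → Sx c C b s →
  (∀ t ∈ b, t.1 < 6) → npr b.reverse = false → finall b.reverse = true →
    fin (fun e => decide (Odd (C e).length)) b.reverse = true

/-- **UPP** (medium; uses CWG, STD, DFS, PRM, WHT, NRM, FIN, MTC, SYM, EXX, PAR).  The result of the
parts C and E.
PROOF. NRM: let `b` be normalized, names `< 6` (the word is the same).  DFS, FIN: `finall b.reverse`; PRM, PAR: `fin p b.reverse = true` with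
`p e = decide (Odd (C e).length)`; `wn p b.reverse ≥ nc (op s) = 4` (WHT, `Sx.co`), so `fin` gives (a) `b' ∈ sy b` with `iso b' bE`,
`par p pE b' bE`, or (b) `b' ∈ sy b` with `iso b' bX`.  (b) MTC, EXX.  (a) MTC: `C'` with `CW C' bE`; `a e = (C' e).length`, `e < 6`: the
parity of `a e` is `pE e` (`par`, `zip`: every name `e < 6` is the name of a member of `bE`), `a e ≥ 1` (`ne`), `∑ a e = c` (CWG for `bE`).  If
`a 0 ≤ a 1` done, otherwise SYM (all parities are as before: `3` and `5` are odd).  STD with `N = 6`; `BL (sc 6 a') bE` depends only on the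
values of `a'` at the names `< 6`. -/
def UppStmt : Prop := ∀ (c : ℕ) (C : ℕ → List ℕ) (b : List Tk) (s : ℕ → Bool), Even c → Sx c C b s →
  (∃ l', Fw c l' ∧ Quot.mk Mv (BL C b) = Quot.mk Mv l') ∨
    ∃ a : Fin 6 → ℕ, Qe c a ∧ Quot.mk Mv (BL C b) =
      Quot.mk Mv (BL (sc 6 (fun e => if h : e < 6 then a ⟨e, h⟩ else 0)) bE)

end Pool.Agent.ACK.C
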