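import Pool.Agent.ACK.StmtsA

/-!
# Squad ACK (MP_0b396c_gt), part D: the lower bound for odd `c`

Every row: file `Pool/Agent/HelperNN_ACK/XXX.lean`, import `Pool.Agent.ACK.StmtsD`, `namespace
Pool.Agent.ACK.HNN`, `open Pool.Agent.ACK.D`, theorem `xxx (hypotheses = rows in uses, in this order) :
XxxStmt`.

THEOREM (LOW).  For `c = 2 m + 15` there are at least `361/720 * choose (m + 5) 5` classes with `c` crossings and
unoriented genus (crosscap number) 3.

PROOF.  The interlacement graph of a word is invariant under the moves (ILG).  For each of the two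
patterns `P` (the even pairs of white faces form a path, a triangle) and lengths `a` (three even, three odd) the word
`Wd P a` has 12 blocks, two for each of the six chains.  Its interlacement graph is the blow-up of the graph `P.Q`
(WIL), it is a prime planar word with `c + 2` faces, the black faces are the circles of a state with `c - 2`
circles (WPL); a state with more circles would give at most three chains (FEW), so at most three classes of
twins, but there are six (WKN).  Isomorphic interlacement graphs: the lengths agree up to an automorphism of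
`P.Q`; there are two for the path, at most 720 for the triangle, and the two graphs `P.Q` are not isomorphic
(FIB).
-/

set_option autoImplicit false

namespace Pool.Agent.ACK.D

/-! ### Interlacement -/

/-- the letters `x`, `y` of `l` in the order of `l` -/
def fl (l : List ℕ) (x y : ℕ) : List ℕ := l.filter fun z => decide (z = x ∨ z = y)

/-- `x` and `y` are interlaced in `l` -/
def Il (l : List ℕ) (x y : ℕ) : Prop :=
  x ≠ y ∧ (fl l x y = [x, y, x, y] ∨ fl l x y = [y, x, y, x])

/-- the interlacement graphs of `l` and `l'` are isomorphic -/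
def Gi (l l' : List ℕ) : Prop :=
  ∃ e : {x // x ∈ l} ≃ {x // x ∈ l'}, ∀ x y, Il l x.1 y.1 ↔ Il l' (e x).1 (e y).1

/-- **ILB** (uses nothing).  Symmetry, rotation, reversal, isolated parts.
PROOF.  (1) `z = x ∨ z = y` is symmetric, `fl l x y = fl l y x` (`List.filter_congr`).  (2) `fl` of an append is the
append; if `p ++ q = [x, y, x, y]` then `p` is one of the five prefixes and `q ++ p` is `[x, y, x, y]` or
`[y, x, y, x]`.  (3) `List.rotate_eq_drop_append_take_mod` and (2).  (4) `List.filter_reverse`.
(5) `fl (a ++ b) x z = fl a x z ++ fl b x z`, the first consists of letters `x`, the second of letters `z`; a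
pattern `x z x z` is not of this form. -/
def IlbStmt : Prop :=
  (∀ l x y, Il l x y → Il l y x) ∧
  (∀ a b x y, Il (a ++ b) x y ↔ Il (b ++ a) x y) ∧
  (∀ l k x y, Il (l.rotate k) x y ↔ Il l x y) ∧
  (∀ l x y, Il l.reverse x y ↔ Il l x y) ∧
  ∀ a b x z, x ∉ b → z ∉ a → ¬ Il (a ++ b) x z

/-- **ILM** (uses nothing).  Renaming.
PROOF.  For `z ∈ l`: `f z = f x ↔ z = x`, so `fl (l.map f) (f x) (f y) = (fl l x y).map f` (`List.filter_map`,
`List.filter_congr`), and `List.map` of lists of letters of `l` is injective (or: compare the entries). -/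
def IlmStmt : Prop :=
  ∀ (l : List ℕ) (f : ℕ → ℕ), Set.InjOn f {x | x ∈ l} →
    ∀ x ∈ l, ∀ y ∈ l, (Il (l.map f) (f x) (f y) ↔ Il l x y)

/-- **ILF** (uses nothing).  Flypes.
PROOF.  If `y ≠ x`, `z ≠ x` both words have the same filter `fl U ++ fl A ++ fl V ++ fl B`.  By the symmetry of
`fl` let `y = x`, `z ≠ x`.  Since the word is a Gauss word, `x` is not in `U, A, V, B`, so `fl U x z` is
`List.replicate (U.count z) z` and so on.  `z` occurs twice in `U ++ V` and not in `A ++ B`, or not in `U ++ V` and
twice or not at all in `A ++ B`.  In all seven cases the two sides agree (only the numbers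
`(1, 1)` in `(U, V)` for `fl1`, `fl3` and `(1, 1)` in `(A, B)` for `fl1`, `fl2` give interlaced letters). -/
def IlfStmt : Prop :=
  ∀ (x : ℕ) (U A V B : List ℕ), Gw (U ++ V) →
    (Gw (x :: (U ++ (A ++ x :: (V ++ B)))) → ∀ y z,
      (Il (x :: (U ++ (A ++ x :: (V ++ B)))) y z ↔ Il (U ++ x :: (A ++ (V ++ x :: B))) y z)) ∧
    (Gw (x :: (U ++ (A ++ (V ++ x :: B)))) → ∀ y z,
      (Il (x :: (U ++ (A ++ (V ++ x :: B)))) y z ↔ Il (U ++ x :: (A ++ x :: (V ++ B))) y z)) ∧
    (Gw (x :: (U ++ x :: (A ++ (V ++ B)))) → ∀ y z,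
      (Il (x :: (U ++ x :: (A ++ (V ++ B)))) y z ↔ Il (U ++ (A ++ x :: (V ++ x :: B))) y z))

/-- **GWM** (uses nothing).  The moves preserve Gauss words.
PROOF.  Rotation, reversal and flypes are permutations of the list (same counts, `List.Perm.count_eq`,
`List.Perm.mem_iff`).  Renaming: `(l.map f).count (f x) = l.count x` for `x ∈ l` (`f` is injective on the
letters). -/
def GwmStmt : Prop := ∀ l l', Mv l l' → (Gw l ↔ Gw l')

/-- **ILG** (uses ILB, ILM, ILF, GWM).  The interlacement graph is invariant.
PROOF.  `Quot.eqvGen_exact` and induction on `Relation.EqvGen` with the symmetric statement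
`(Gw l ↔ Gw l') ∧ (Gw l → Gi l l')`.  `Gi` is an equivalence relation (`Equiv.refl`, `symm`, `trans`).  For rotation,
reversal and flypes `e` is the identity (the letters are the same, `Equiv.subtypeEquivRight`), for renaming
`e x = f x` (`Equiv.ofBijective`). -/
def IlgStmt : Prop := ∀ l l', Quot.mk Mv l = Quot.mk Mv l' → Gw l → Gw l' ∧ Gi l l'

/-! ### Twins -/

/-- **TWC** (uses nothing).  Letters of one chain are twins.
PROOF.  Let `e = t.1`.  By `tw` `b = P ++ t1 :: (Q ++ t2 :: R)` with `t1.1 = t2.1 = e` and no token `e` in `P, Q, R`;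
`BL C b = BL C P ++ bk C t1 ++ BL C Q ++ bk C t2 ++ BL C R`, the letters of `C e` are not in `BL C P`, `BL C Q`,
`BL C R` (`dj`) and exactly once in each of the two blocks (`nd`).  If `z ∉ C e`, then
`fl (BL C b) x z = z^p ++ [x] ++ z^q ++ [x] ++ z^r` with numbers `p, q, r` which do not depend on `x ∈ C e`
(`z^p` = `List.replicate p z`), and `Il` means `(p, q, r) = (0, 1, 1)` or `(1, 1, 0)`.  If `z ∈ C e`, then
`fl (BL C b) x z = fl (bk C t1) x z ++ fl (bk C t2) x z`, both parts are `[x, z]` or `[z, x]`, they are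
equal iff `t1.2 = t2.2`; so `Il (BL C b) x z ↔ t1.2 = t2.2`, and the same for `y`. -/
def TwcStmt : Prop :=
  ∀ (C : ℕ → List ℕ) (b : List Tk), CW C b → ∀ t ∈ b, ∀ x ∈ C t.1, ∀ y ∈ C t.1,
    ∀ z, z ≠ x → z ≠ y → (Il (BL C b) x z ↔ Il (BL C b) y z)

/-- **FOU** (uses FEW (part A), ILB, TWC).  At most three classes of twins.
PROOF.  FEW: `l.rotate k = BL C b` for some `k`, `b.length ≤ 6`.  Every letter `x` of `l` is in the block of a token, so in
`C t.1` for some `t ∈ b`.  `b.map Prod.fst` is a Gauss word of length at most 6, so it has at most 3 different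
entries (`(b.map Prod.fst).toFinset.card * 2 ≤ 6`: `List.toFinset_sum_count_eq`).  Pigeonhole for
`i ↦ chain of g i`; TWC, and ILB (3) for the rotation. -/
def FouStmt : Prop :=
  ∀ (c : ℕ) (l : List ℕ) (s : ℕ → Bool), 3 ≤ c → Kn c l → c ≤ nc (wd c l) s + 1 →
    ∀ g : Fin 4 → ℕ, (∀ i, g i ∈ l) →
      ∃ i j, i ≠ j ∧ ∀ z, z ≠ g i → z ≠ g j → (Il l (g i) z ↔ Il l (g j) z)

/-- **TWN** (uses nothing).  Isomorphic blow-ups.  `Q i i` is the adjacency inside the class `i`.
PROOF.  For `x, y` in `X` let `Tw x y` be: `R x z ↔ R y z` for all `z ≠ x, y`.  `Tw x y ↔ κ x = κ y`: if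
`κ x = κ y` both sides are `Q (κ x) (κ z)`.  If `κ x = i ≠ j = κ y` there is `k` with `Q i k ≠ Q j k` (rows), and a `z`
with `κ z = k`, `z ≠ x`, `z ≠ y` (the class `k` has two elements; at most one of `x`, `y` is in it).  The
same for `Y`; `e` preserves `Tw`, so `κ x = κ y ↔ κ' (e x) = κ' (e y)`.  Choose `x_i` in the class `i`, `π i = κ' (e x_i)`:
injective, so bijective (`Finite.injective_iff_bijective`), `κ' (e x) = π (κ x)`.  For `i, j` choose `x ≠ y` in the
classes `i`, `j` (possible also for `i = j`): `Q' (π i) (π j) ↔ S (e x) (e y) ↔ R x y ↔ Q i j`. -/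
def TwnStmt : Prop :=
  ∀ (X Y : Type) (R : X → X → Prop) (S : Y → Y → Prop) (e : X ≃ Y)
    (κ : X → Fin 6) (κ' : Y → Fin 6) (Q Q' : Fin 6 → Fin 6 → Bool),
    (∀ x y, R x y ↔ S (e x) (e y)) →
    (∀ i j, (∀ k, Q i k = Q j k) → i = j) → (∀ i j, (∀ k, Q' i k = Q' j k) → i = j) →
    (∀ x y, x ≠ y → (R x y ↔ Q (κ x) (κ y) = true)) →
    (∀ x y, x ≠ y → (S x y ↔ Q' (κ' x) (κ' y) = true)) →
    (∀ i, ∃ x y, x ≠ y ∧ κ x = i ∧ κ y = i) → (∀ i, ∃ x y, x ≠ y ∧ κ' x = i ∧ κ' y = i) →
    ∃ π : Equiv.Perm (Fin 6), (∀ i j, Q' (π i) (π j) = Q i j) ∧ ∀ x, κ' (e x) = π (κ x)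

/-! ### The two patterns -/

/-- the data of a pattern with six chains -/
structure Pat where
  /-- chain of the block -/
  ch : Fin 12 → Fin 6
  /-- is it the second block of its chain -/
  st : Fin 12 → Bool
  /-- are the two blocks of the chain parallel (otherwise the second one is reversed) -/
  pr : Fin 6 → Bool
  /-- white face of the chain at the start of the first block -/
  f : Fin 6 → Fin 4
  /-- the other white face of the chain -/
  k : Fin 6 → Fin 4
  /-- black triangle at the start of the chain -/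
  A : Fin 6 → Fin 4
  /-- black triangle at the end of the chain -/
  Z : Fin 6 → Fin 4
  /-- interlacement of the chains; `Q i i = pr i` -/
  Q : Fin 6 → Fin 6 → Bool

/-- the even pairs are a path -/
def pat1 : Pat where
  ch := ![3, 2, 1, 3, 0, 5, 1, 4, 0, 2, 4, 5]
  st := ![false, false, false, true, false, false, true, false, true, true, true, true]
  pr := ![false, false, true, true, true, true]
  f := ![0, 2, 2, 0, 3, 0]
  k := ![1, 3, 1, 2, 1, 3]
  A := ![3, 0, 3, 1, 0, 2]
  Z := ![2, 1, 0, 3, 2, 1]
  Q := ![![false, true, false, false, true, true], ![true, false, false, true, false, true],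
    ![false, false, true, true, true, true], ![false, true, true, true, false, false],
    ![true, false, true, false, true, false], ![true, true, true, false, false, true]]

/-- the even pairs are a triangle -/
def pat2 : Pat where
  ch := ![1, 0, 3, 5, 2, 1, 5, 4, 0, 2, 4, 3]
  st := ![false, false, false, false, false, true, true, false, true, true, true, true]
  pr := ![false, false, false, true, true, true]
  f := ![0, 0, 2, 0, 3, 3]
  k := ![1, 2, 1, 3, 1, 2]
  A := ![3, 1, 0, 2, 0, 1]
  Z := ![2, 3, 3, 1, 2, 0]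
  Q := ![![false, true, true, true, true, false], ![true, false, true, true, false, true],
    ![true, true, false, false, true, true], ![true, true, false, true, false, false],
    ![true, false, true, false, true, false], ![false, true, true, false, false, true]]

/-- the crossings `6 s + i`, `s < n`, of the chain `i`, backwards if `d`, with the mark `t` -/
def run (i : Fin 6) (t d : Bool) (n : ℕ) : List (ℕ × Bool) :=
  if d then ((List.range n).map fun s => (6 * s + i.1, t)).reverse
  else (List.range n).map fun s => (6 * s + i.1, t)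

/-- the marked word: the mark is `false` at the first and `true` at the second passage -/
def W2 (P : Pat) (a : Fin 6 → ℕ) : List (ℕ × Bool) :=
  (List.finRange 12).flatMap fun p =>
    run (P.ch p) (P.st p) (P.st p && !(P.pr (P.ch p))) (a (P.ch p))

/-- the word of the pattern `P` with the lengths `a` -/
def Wd (P : Pat) (a : Fin 6 → ℕ) : List ℕ := (W2 P a).map Prod.fst

/-- the chain of the crossing `x` -/
def cx (x : ℕ) : Fin 6 := ⟨x % 6, Nat.mod_lt _ (by norm_num)⟩

/-- the lengths: even and at least 2, or odd and at least 3 -/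
def ln (b : Fin 6 → ℕ) (i : Fin 6) : ℕ := 2 * b i + if i.1 < 3 then 2 else 3

/-- **WCL** (uses nothing).  Letters.
PROOF.  For every chain `i` there is exactly one block `p` with `P.ch p = i`, `P.st p = false` and exactly one
with `P.st p = true` (`decide`).  `(x, t) ∈ run i t' d n ↔ t = t' ∧ cx x = i ∧ x / 6 < n`.  (1) `List.nodup_flatMap`: the
runs are injective images of `List.range`, two different blocks differ in the chain or in the mark.
(2) the length is the sum of the lengths of the runs.  (3) membership.  (4) by (1), (3) the count of `x` in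
`Wd P a` is the number of marks `t` with `(x, t) ∈ W2 P a`, so two. -/
def WclStmt : Prop :=
  ∀ P : Pat, (P = pat1 ∨ P = pat2) → ∀ a : Fin 6 → ℕ,
    (W2 P a).Nodup ∧ (Wd P a).length = 2 * ∑ i, a i ∧
    (∀ x t, (x, t) ∈ W2 P a ↔ x / 6 < a (cx x)) ∧ (∀ x, x ∈ Wd P a ↔ x / 6 < a (cx x)) ∧
    Gw (Wd P a)

/-- **WIL** (uses nothing).  The interlacement graph is the blow-up of `P.Q`.
PROOF.  `fl` of the word is the concatenation of `fl` of the 12 runs (`List.map_flatMap`, `List.filter_flatMap`).
The run of the chain `i` is filtered to: `[]` if `i ≠ cx x, cx y`; `[x]` if `i = cx x ≠ cx y`, `[y]` if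
`i = cx y ≠ cx x`; `[x, y]` or `[y, x]` if `i = cx x = cx y` (the smaller one first, reversed in the reversed runs).
(For `cx x = i`: `x = 6 (x / 6) + i`; `List.range n` filtered to one number `< n` is the list of this number.)  Then
`fin_cases` over `cx x`, `cx y`: the concatenation of 12 lists, compare with the table `P.Q`. -/
def WilStmt : Prop :=
  ∀ P : Pat, (P = pat1 ∨ P = pat2) → ∀ (a : Fin 6 → ℕ) (x y : ℕ),
    x / 6 < a (cx x) → y / 6 < a (cx y) → x ≠ y →
      (Il (Wd P a) x y ↔ P.Q (cx x) (cx y) = true)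

/-- **WPR** (uses ILB, WCL, WIL).  The words are prime.
PROOF.  Suppose no letter of `a'` is in `b'`.  Every letter of `Wd P a` is in exactly one of `a'`, `b'`
(`List.mem_rotate`).  By ILB (3), (5) a letter of `a'` is not interlaced with a letter of `b'`.  So by WIL: if
`P.Q i j`, `i ≠ j`, and one letter of the chain `i` is in `a'` then all letters of the chain `j` are in `a'`.  The
graph `P.Q` is connected (`decide`: between any two chains, also from a chain to itself, there is a walk of
length at least 1 with steps `i ≠ j`; e.g. two or three steps), so all letters are in `a'` and `b' = []`. -/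
def WprStmt : Prop :=
  ∀ P : Pat, (P = pat1 ∨ P = pat2) → ∀ a : Fin 6 → ℕ, (∀ i, 1 ≤ a i) →
    ∀ (k : ℕ) (a' b' : List ℕ), (Wd P a).rotate k = a' ++ b' → a' ≠ [] → b' ≠ [] → ∃ x ∈ a', x ∈ b'

/-! ### The faces -/

/-- black faces: a triangle or a bigon between `(i, s - 1)` and `(i, s)` -/
abbrev Bl : Type := Fin 4 ⊕ (Fin 6 × ℕ)

/-- the black face between the crossings `s - 1` and `s` of the chain `i` -/
def blk (P : Pat) (a : Fin 6 → ℕ) (i : Fin 6) (s : ℕ) : Bl :=
  if s = 0 then .inl (P.A i) else if s = a i then .inl (P.Z i) else .inr (i, s)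

/-- white face: `wht P i s false` is the white face of the edge by which the first strand comes to the
crossing `s` of the chain `i`, `wht P i s true` the one of the edge by which it leaves -/
def wht (P : Pat) (i : Fin 6) (s : ℕ) (t : Bool) : Fin 4 :=
  if xor (decide (s % 2 = 1)) t then P.k i else P.f i

/-- white and black face of the edge by which the strand comes to the crossing -/
def inn (P : Pat) (a : Fin 6 → ℕ) (p : ℕ × Bool) : Fin 4 × Bl :=
  if p.2 = false then (wht P (cx p.1) (p.1 / 6) false, blk P a (cx p.1) (p.1 / 6))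
  else if P.pr (cx p.1) = true then (wht P (cx p.1) (p.1 / 6) true, blk P a (cx p.1) (p.1 / 6))
  else (wht P (cx p.1) (p.1 / 6) false, blk P a (cx p.1) (p.1 / 6 + 1))

/-- white and black face of the edge by which the strand leaves the crossing -/
def out (P : Pat) (a : Fin 6 → ℕ) (p : ℕ × Bool) : Fin 4 × Bl :=
  if p.2 = false then (wht P (cx p.1) (p.1 / 6) true, blk P a (cx p.1) (p.1 / 6 + 1))
  else if P.pr (cx p.1) = true then (wht P (cx p.1) (p.1 / 6) false, blk P a (cx p.1) (p.1 / 6 + 1))
  else (wht P (cx p.1) (p.1 / 6) true, blk P a (cx p.1) (p.1 / 6))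

/-- the state of the black faces -/
def bs (P : Pat) (x : ℕ) : Bool := !(P.pr (cx x))

/-- **WCH** (uses nothing).  The labels of the edges fit together.
PROOF.  `List.isChain_append`: check inside of the runs and between consecutive runs (the first run is
repeated at the end).  Inside: a step of the run changes `s` to `s + 1` (or back in the reversed runs);
`wht P i s true = wht P i (s + 1) false`, and `0 < s + 1 < a i` where it is needed (the label `blk` is literally
the same on both sides).  Between: the first and the last element of a run are `s = 0` and `s = a i - 1` (or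
reversed), and `a i` is even for `i < 3`, odd for `i ≥ 3`: the labels at the ends are `P.f i` or `P.k i` and `P.A i` or
`P.Z i`; compare the 12 pairs of neighbours.  (Checked by evaluation for many `a`.) -/
def WchStmt : Prop :=
  ∀ P : Pat, (P = pat1 ∨ P = pat2) → ∀ b : Fin 6 → ℕ,
    (W2 P (ln b) ++ (W2 P (ln b)).take 1).IsChain
      (fun p q => out P (ln b) p = inn P (ln b) q)

/-- **LAB** (uses nothing).  Labels give a lower bound for the number of circles.
PROOF.  `F i = out (L.getD i.val d)` for `i : ZMod (2 c)` (`d` any default).  By the chain condition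
`F (i - 1) = inn (L.getD i.val d)` (for `i = 0`: the last and the first element).  If `i ≠ j` are positions with
the same letter, then `L[i] = (x, t)`, `L[j] = (x, !t)` (`L` has no repetitions), so the conditions at the
crossing `x` say that `F` is constant on the classes of `CR (wd c (L.map Prod.fst)) s`.  `F` factors through the
quotient, and its image contains `T`. -/
def LabStmt : Prop :=
  ∀ (c : ℕ) (L : List (ℕ × Bool)) (s : ℕ → Bool) (α : Type) (inn out : ℕ × Bool → α),
    1 ≤ c → L.length = 2 * c → L.Nodup →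
    (L ++ L.take 1).IsChain (fun p q => out p = inn q) →
    (∀ x, (x, true) ∈ L → (x, false) ∈ L →
      (s x = true → inn (x, false) = out (x, true) ∧ inn (x, true) = out (x, false)) ∧
      (s x = false → inn (x, false) = inn (x, true) ∧ out (x, false) = out (x, true))) →
    ∀ T : Finset α, (∀ t ∈ T, ∃ p ∈ L, out p = t ∨ inn p = t) →
      T.card ≤ nc (wd c (L.map Prod.fst)) s

/-- **EUL** (proved in part B, not a row of part D).  Euler's inequality.
PROOF.  Linear algebra over `ZMod 2`, `E = ZMod (2 c) → ZMod 2`.  Let `A s` be the submodule of the functions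
which are constant on the circles of `s` (`g p = g q` whenever `CR w s p q`); it is isomorphic to the functions on
`Quot (CR w s)`, so its dimension is `nc w s`.  `A s ⊓ A (op s)`: for partners `i, j` all four values
`g (i - 1), g i, g (j - 1), g j` are equal, so `g (i - 1) = g i` for all `i` and `g` is constant: dimension at
most 1.  Let `D : E → E`, `(D g) i = g (i - 1) + g i`, and `U` the submodule of the functions `h` with `h i = h j`
whenever `w i = w j`: dimension `c` (there are `c` letters, `Gf`).  `A s, A (op s) ≤ U.comap D`, the kernel of `D` are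
the constants, so the dimension of `U.comap D` is at most `c + 1`.
`nc w s + nc w (op s) = dim (A s ⊔ A (op s)) + dim (A s ⊓ A (op s)) ≤ c + 1 + 1`. -/
def EulStmt : Prop :=
  ∀ (c : ℕ) (w : ZMod (2 * c) → ℕ), 1 ≤ c → Gf w → ∀ s, nc w s + nc w (op s) ≤ c + 2

/-- **WPL** (uses WCL, WCH, LAB, EUL, GFW (part A)).  The faces of `Wd P (ln b)`.
PROOF.  `c = ∑ i, ln b i`.  LAB for `L = W2 P (ln b)`, the state `bs P` and the second components of `inn`, `out`
(the black faces): at a crossing of the chain `i` with `pr i = true` (state `false`) both strands come from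
`blk s` and leave to `blk (s + 1)`; with `pr i = false` the second strand comes from `blk (s + 1)` and leaves to
`blk s`.  `T` = the four triangles (every one is `P.A i` for some `i`, `s = 0`) and the bigons `(i, s)`,
`0 < s < ln b i`: `4 + ∑ i, (ln b i - 1) = c - 2` elements.  The same with the first components (the white faces)
and the state `op (bs P)`: `T` = all four white faces (every one is `P.f i` or `P.k i`; `s = 0`).  So
`nc (bs P) ≥ c - 2`, `nc (op (bs P)) ≥ 4`; EUL (`Gf` by GFW). -/
def WplStmt : Prop :=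
  ∀ P : Pat, (P = pat1 ∨ P = pat2) → ∀ (b : Fin 6 → ℕ) (c : ℕ), c = ∑ i, ln b i →
    nc (wd c (Wd P (ln b))) (bs P) + 2 = c ∧ nc (wd c (Wd P (ln b))) (op (bs P)) = 4

/-- **WKN** (uses WCL, WIL, WPR, WPL, FOU).  The words are words of knots with genus 3.
PROOF.  `Kn`: WCL, WPL (`s = bs P`), WPR.  `Ga`: WPL, and if some state had `nc + 3 > c + 1`, FOU for the four letters
`0, 1, 2, 3` (the first crossings of the chains `0, 1, 2, 3`): two of them, `i ≠ j`, are twins; but there is `k` with
`P.Q i k ≠ P.Q j k` (`decide`), and the letter `z = 6 + k` (`1 < ln b k`) contradicts WIL.  `ga`: the same; the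
state `bs P` is `false` at the letter `5`. -/
def WknStmt : Prop :=
  ∀ P : Pat, (P = pat1 ∨ P = pat2) → ∀ (b : Fin 6 → ℕ) (c : ℕ), c = ∑ i, ln b i →
    Kn c (Wd P (ln b)) ∧ Ga c (Wd P (ln b)) 3 ∧ ga c (Wd P (ln b)) 3

/-! ### Counting -/

/-- the exchange of the two ends of the path -/
def tau : Equiv.Perm (Fin 6) := Equiv.swap 0 1 * Equiv.swap 3 4

/-- **AUT** (uses nothing).  `decide +kernel` (a few seconds). -/
def AutStmt : Prop :=
  (∀ π : Equiv.Perm (Fin 6), (∀ i j, pat1.Q (π i) (π j) = pat1.Q i j) → π = 1 ∨ π = tau) ∧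
  (∀ π : Equiv.Perm (Fin 6), ¬ ∀ i j, pat2.Q (π i) (π j) = pat1.Q i j) ∧
  (∀ i j, (∀ k, pat1.Q i k = pat1.Q j k) → i = j) ∧ ∀ i j, (∀ k, pat2.Q i k = pat2.Q j k) → i = j

/-- **FIB** (uses ILG, TWN, WCL, WIL, AUT).  Equal classes.
PROOF.  ILG gives `e : {x // x ∈ Wd P (ln b)} ≃ {x // x ∈ Wd P' (ln b')}`.  TWN with `κ = cx`, `R x y = Il .. x y`
(WIL), every class has the two letters `i`, `6 + i`: a permutation `π` with `P'.Q (π i) (π j) = P.Q i j` and
`cx (e x) = π (cx x)`.  The number of the letters `x` with `cx x = i` is `ln b i`, so `ln b' (π i) = ln b i`.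
(1) AUT: `π = 1` or `tau`; both preserve `{0, 1, 2}`, so `b' (π i) = b i`.  (2) `2 * b' (π i) + .. = 2 * b i + ..`, so
`b' (π i) = b i + ε` with `2 ε ∈ {-1, 0, 1}`, i.e. `b' (π i) = b i`.  (3) AUT. -/
def FibStmt : Prop :=
  (∀ b b' : Fin 6 → ℕ, Quot.mk Mv (Wd pat1 (ln b)) = Quot.mk Mv (Wd pat1 (ln b')) →
    b' = b ∨ ∀ i, b' (tau i) = b i) ∧
  (∀ b b' : Fin 6 → ℕ, Quot.mk Mv (Wd pat2 (ln b)) = Quot.mk Mv (Wd pat2 (ln b')) →
    ∃ π : Equiv.Perm (Fin 6), ∀ i, b' (π i) = b i) ∧
  ∀ b b' : Fin 6 → ℕ, Quot.mk Mv (Wd pat1 (ln b)) ≠ Quot.mk Mv (Wd pat2 (ln b'))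

/-- **SAB** (uses nothing).  Stars and bars.
PROOF.  E.g. by induction on the number `n` of variables for
`Nat.card {b : Fin (n + 1) → ℕ // ∑ i, b i = m} = (m + n).choose n` (split off the first coordinate,
`Nat.sum_range_choose` or `Finset.sum_range_choose`-type identities), or
`Sym.card_sym_eq_choose` with `Finset.piAntidiag`. -/
def SabStmt : Prop := ∀ m : ℕ,
  Finite {b : Fin 6 → ℕ // ∑ i, b i = m} ∧
    Nat.card {b : Fin 6 → ℕ // ∑ i, b i = m} = (m + 5).choose 5

/-- **CNT** (uses nothing).  Counting.
PROOF.  `A1 = Set.range g1`, `A2 = Set.range g2` are disjoint finite subsets of `S`, so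
`A1.ncard + A2.ncard ≤ S.encard`.  The fibres of `g1` have at most two elements, the fibres of `g2` at most `720`
elements (`x'` is one of the elements `σ π x`): `Nat.card X ≤ 2 * A1.ncard`, `Nat.card X ≤ 720 * A2.ncard`
(`Finset.card_le_mul_card_image`).  Add `360` times the first and the second inequality. -/
def CntStmt : Prop :=
  ∀ (X Y : Type) [Finite X] (g1 g2 : X → Y) (τ : X → X) (σ : Equiv.Perm (Fin 6) → X → X) (S : Set Y),
    (∀ x x', g1 x = g1 x' → x' = x ∨ x' = τ x) → (∀ x x', g2 x = g2 x' → ∃ π, x' = σ π x) →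
    (∀ x x', g1 x ≠ g2 x') → (∀ x, g1 x ∈ S) → (∀ x, g2 x ∈ S) →
      (361 * Nat.card X : ℕ) ≤ 720 * S.encard

/-- **LOW** (uses WKN, FIB, SAB, CNT).  The lower bound.
PROOF.  `X = {b // ∑ i, b i = m}`, `∑ i, ln b i = 2 m + 15`; `g1 b`, `g2 b` the classes of `Wd pat1 (ln b)`,
`Wd pat2 (ln b)`; `τ b = b ∘ tau⁻¹`, `σ π b = b ∘ π⁻¹`. -/
def LowStmt : Prop := ∀ m : ℕ,
  ((361 * (m + 5).choose 5 : ℕ) : ℕ∞) ≤ 720 * An 3 (2 * m + 15) ∧
    ((361 * (m + 5).choose 5 : ℕ) : ℕ∞) ≤ 720 * an 3 (2 * m + 15)

end Pool.Agent.ACK.D
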