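import Pool.Agent.ACK.StmtsB
import Pool.Agent.ACK.StmtsC
import Pool.Agent.ACK.StmtsD

/-!
# Squad ACK (MP_0b396c_gt), part F: the comparison (statements; proved by helper15)
-/

set_option autoImplicit false

namespace Pool.Agent.ACK

/-- **UPR** (uses DIC, COU, UPP, QEC).  The classes with a state with `c - 2` circles.
PROOF. DIC: `l ~r l'` with `Fw c l'` (COU), or `l ~r BL C b` with `Sx` (UPP: `Fw` or a parameter `a` with `Qe c a`).  So the
set is contained in the union of the set of COU and the image of `{a | Qe c a}`; QEC; `2 K + 1` in place of `K`. -/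
def UprStmt : Prop := ∃ K : ℕ, ∀ m c : ℕ, c = 2 * m + 16 →
  2 * Set.encard {q : Quot Mv | ∃ (l : List ℕ) (s : ℕ → Bool), Kn c l ∧ nc (wd c l) s + 2 = c ∧
    Quot.mk Mv l = q} ≤ (((m + 9).choose 5 + K * (c + 1) ^ 4 : ℕ) : ℕ∞)

/-- **RSS** (uses UPR, LOW, ARI).  The final comparison.
PROOF. `An 3 c`, `an 3 c` are at most the number in UPR (`Ga c l 3`: a state with `nc + 3 = c + 1`), and
`720 An 3 c ≤ 360 (C(m + 9, 5) + K (2 m + 17)^4) < 361 C(m + 5, 5) ≤ 720 An 3 (c - 1)`. -/
def RssStmt : Prop := ResStmt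

end Pool.Agent.ACK
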